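import Pool.Agent.Helper14.WH.Full
import Pool.Agent.Helper2.LT.Hodge

/-!
Project WH (MP_b8862a_ag): the conclusions for even weight, with the generation property instead of coprime Hodge numbers.
-/

set_option linter.unusedSectionVars false

open Matrix Module MH

namespace LT

/-- **The conclusions**, with the generation property. -/
theorem concl14 {m : ℤ} {n : Type*} [Fintype n] [DecidableEq n] {Q : Matrix n n ℚ} {S : Finset ℤ}
    {P : ℤ → Matrix n n ℂ} (H : IsHW (2 * m) Q S P)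
    (hEnd : ∀ A : Matrix n n ℚ, (∀ p, toC A * P p = P p * toC A) → ∃ c : ℚ, A = c • (1 : Matrix n n ℚ))
    (hN : NumsE n m (fun p => (P p).rank)) :
    (∀ g : GL n ℂ, g ∈ MT S P ↔ IsGQ (2 * m) Q g) ∧
      ∀ (ℓ : ℕ) [Fact ℓ.Prime] (ι : ℚ_[ℓ] →+* ℂ) (Γ : Subgroup (GL n ℚ_[ℓ])) (R : ℤ → Matrix n n ℂ),
        IsGalP (2 * m) Q S P (Γ.map (Matrix.GeneralLinearGroup.map ι)) R →
        (∃ D : Subgroup (GL n ℚ), IsMon Q S P D ∧
          D.map (Matrix.GeneralLinearGroup.map (algebraMap ℚ ℚ_[ℓ])) ≤ Γ) ∨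
        ((∀ q q' : ℕ, (∀ p, q ∣ (P p).rank) → (∀ p, q' ∣ (P p).rank) → q * q' < Fintype.card n) ∧
          IsGen (2 * m) Q S P (Γ.map (Matrix.GeneralLinearGroup.map ι)) ∧ SemiS Γ ∧
          ∀ t, IsTateTensor (Γ.map (Matrix.GeneralLinearGroup.map ι)) 1 1 t → MTfix S P 1 1 t) →
        ∀ (a b : ℕ) (t : (Fin a ⊕ Fin b → n) → ℂ),
          IsTateTensor (Γ.map (Matrix.GeneralLinearGroup.map ι)) a b t ↔ MTfix S P a b t := by
  obtain ⟨h1, h2⟩ := concl H hEnd hN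
  refine ⟨h1, fun ℓ _ ι Γ R G hAB a b t => ?_⟩
  rcases hAB with hB | ⟨hgcd, hgen, hss, h11⟩
  · exact h2 ℓ ι Γ R G (Or.inl hB) a b t
  obtain ⟨h5, hI, hcore, hpow⟩ := hN
  have hne : Nonempty n := Fintype.card_pos_iff.1 (by omega)
  have H' := H.toHS
  have h3 := fun (X : Matrix n n ℂ) (hX : Xᵀ * toC Q + toC Q * X = 0) => so_kills_core H' hEnd hI hcore hpow hX
  have hMT : ∀ (g : GL n ℂ) (z : ℂ), (m = 0 → z = 1) →
      (g : Matrix n n ℂ)ᵀ * toC Q * (g : Matrix n n ℂ) = z ^ 2 • toC Q →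
      (g : Matrix n n ℂ).det = z ^ Fintype.card n → g ∈ MT S P :=
    fun g z hz hg hd => zso_le_MT H' (fun g hg hd => so_le_MT_of H' h3 hg hd) hz hg hd
  exact tate_iff_fam14 H' G (vIrr_of_potIrr ι (potIrr_of_t11 ι hss H hEnd h11)) hMT
    (fun T hT => H.com_of_gen14 hEnd hgen h11 T hT) hI hcore hgcd a b t

end LT
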