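import Pool.Agent.Helper2.EL.Defs

/-!
Project WH (MP_b8862a_ag): if the matrices that commute with `L` are scalars and `Γ` normalises `L` and acts irreducibly,
then `L` acts irreducibly.
-/

set_option linter.unusedSectionVars false

open Matrix

namespace MH

section aux

variable {K V G : Type*} [Field K] [AddCommGroup V] [Module K V] [Group G] {A : Subalgebra K (Module.End K V)}
  {ρ : G →* (Module.End K V)ˣ}

private def Nrm (A : Subalgebra K (Module.End K V)) (ρ : G →* (Module.End K V)ˣ) : Prop :=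
  ∀ g, ∀ a ∈ A, ((ρ g : (Module.End K V)ˣ) : Module.End K V) * a * ((ρ g⁻¹ : (Module.End K V)ˣ) : Module.End K V) ∈ A

private lemma inv_app (g : G) (v : V) : (ρ g⁻¹ : Module.End K V) ((ρ g : Module.End K V) v) = v := by
  rw [← Module.End.mul_apply, ← Units.val_mul, ← map_mul, inv_mul_cancel, map_one, Units.val_one,
    Module.End.one_apply]

private lemma app_inv (g : G) (v : V) : (ρ g : Module.End K V) ((ρ g⁻¹ : Module.End K V) v) = v := by
  rw [← Module.End.mul_apply, ← Units.val_mul, ← map_mul, mul_inv_cancel, map_one, Units.val_one,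
    Module.End.one_apply]

/-- the conjugate of an element of `A` -/
private def cj' (hn : Nrm A ρ) (g : G) (a : A) : A := ⟨_, hn g a.1 a.2⟩

private lemma cj'_smul (hn : Nrm A ρ) (g : G) (a : A) (v : V) :
    cj' hn g a • (ρ g : Module.End K V) v = (ρ g : Module.End K V) (a • v) := by
  change ((ρ g : Module.End K V) * a.1 * (ρ g⁻¹ : Module.End K V)) ((ρ g : Module.End K V) v) = _
  rw [Module.End.mul_apply, inv_app, Module.End.mul_apply]
  rfl

/-- the preimage of a submodule -/
private def cm (hn : Nrm A ρ) (g : G) (W : Submodule A V) : Submodule A V where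
  carrier := {v | (ρ g : Module.End K V) v ∈ W}
  add_mem' := by
    intro v w hv hw
    rw [Set.mem_ofPred_eq, map_add]
    exact W.add_mem hv hw
  zero_mem' := by
    rw [Set.mem_ofPred_eq, map_zero]
    exact W.zero_mem
  smul_mem' := by
    intro a v hv
    rw [Set.mem_ofPred_eq, ← cj'_smul hn]
    exact W.smul_mem _ hv

private lemma mem_cm (hn : Nrm A ρ) (g : G) (W : Submodule A V) (v : V) :
    v ∈ cm hn g W ↔ (ρ g : Module.End K V) v ∈ W := Iff.rfl

private lemma cm_inv (hn : Nrm A ρ) (g : G) (W : Submodule A V) : cm hn g⁻¹ (cm hn g W) = W := by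
  ext v
  rw [mem_cm, mem_cm, app_inv]

private lemma cm_inv' (hn : Nrm A ρ) (g : G) (W : Submodule A V) : cm hn g (cm hn g⁻¹ W) = W := by
  ext v
  rw [mem_cm, mem_cm, inv_app]

private lemma cm_mono (hn : Nrm A ρ) (g : G) {W W' : Submodule A V} (h : W ≤ W') : cm hn g W ≤ cm hn g W' :=
  fun _ hv => h hv

/-- as an order isomorphism -/
private def cmO (hn : Nrm A ρ) (g : G) : Submodule A V ≃o Submodule A V where
  toFun := cm hn g
  invFun := cm hn g⁻¹
  left_inv := cm_inv hn g
  right_inv := cm_inv' hn g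
  map_rel_iff' := by
    intro W W'
    constructor
    · intro h
      have := cm_mono hn g⁻¹ h
      change cm hn g⁻¹ (cm hn g W) ≤ cm hn g⁻¹ (cm hn g W') at this
      rwa [cm_inv, cm_inv] at this
    · exact fun h => cm_mono hn g h

private lemma cm_simple (hn : Nrm A ρ) (g : G) {S : Submodule A V} (h : IsSimpleModule A S) :
    IsSimpleModule A (cm hn g S) := by
  rw [isSimpleModule_iff_isAtom] at h ⊢
  exact ((cmO hn g).isAtom_iff S).2 h

private def tm (hn : Nrm A ρ) (g : G) (S : Submodule A V) (v : cm hn g S) : S :=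
  ⟨(ρ g : Module.End K V) v.1, v.2⟩

private lemma tm_add (hn : Nrm A ρ) (g : G) (S : Submodule A V) (v w : cm hn g S) :
    tm hn g S (v + w) = tm hn g S v + tm hn g S w :=
  Subtype.ext (map_add (ρ g : Module.End K V) v.1 w.1)

private lemma tm_smul (hn : Nrm A ρ) (g : G) (S : Submodule A V) (a : A) (v : cm hn g S) :
    tm hn g S (a • v) = cj' hn g a • tm hn g S v :=
  Subtype.ext (cj'_smul hn g a v.1).symm

private def um (hn : Nrm A ρ) (g : G) (S : Submodule A V) (v : S) : cm hn g S :=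
  ⟨(ρ g⁻¹ : Module.End K V) v.1, by
    rw [mem_cm, app_inv]
    exact v.2⟩

private lemma um_add (hn : Nrm A ρ) (g : G) (S : Submodule A V) (v w : S) :
    um hn g S (v + w) = um hn g S v + um hn g S w :=
  Subtype.ext (map_add (ρ g⁻¹ : Module.End K V) v.1 w.1)

private lemma um_smul (hn : Nrm A ρ) (g : G) (S : Submodule A V) (a : A) (v : S) :
    um hn g S (cj' hn g a • v) = a • um hn g S v := by
  apply Subtype.ext
  apply Function.LeftInverse.injective (inv_app (ρ := ρ) g)
  change (ρ g : Module.End K V) ((ρ g⁻¹ : Module.End K V) (cj' hn g a • v.1)) =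
    (ρ g : Module.End K V) (a • (ρ g⁻¹ : Module.End K V) v.1)
  rw [app_inv, ← cj'_smul hn, app_inv]

private lemma um_tm (hn : Nrm A ρ) (g : G) (S : Submodule A V) (v : cm hn g S) :
    um hn g S (tm hn g S v) = v := Subtype.ext (inv_app g v.1)

private lemma tm_um (hn : Nrm A ρ) (g : G) (S : Submodule A V) (v : S) :
    tm hn g S (um hn g S v) = v := Subtype.ext (app_inv g v.1)

/-- transport of isomorphisms -/
private def cmE (hn : Nrm A ρ) (g : G) {S T : Submodule A V} (e : S ≃ₗ[A] T) : cm hn g S ≃ₗ[A] cm hn g T where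
  toFun v := um hn g T (e (tm hn g S v))
  invFun v := um hn g S (e.symm (tm hn g T v))
  map_add' := by
    intro v w
    rw [tm_add, map_add, um_add]
  map_smul' := by
    intro a v
    rw [tm_smul, map_smul, um_smul, RingHom.id_apply]
  left_inv := by
    intro v
    change um hn g S (e.symm (tm hn g T (um hn g T (e (tm hn g S v))))) = v
    rw [tm_um, LinearEquiv.symm_apply_apply, um_tm]
  right_inv := by
    intro v
    change um hn g T (e (tm hn g S (um hn g S (e.symm (tm hn g T v))))) = v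
    rw [tm_um, LinearEquiv.apply_symm_apply, um_tm]

private lemma cm_iso (hn : Nrm A ρ) (g : G) (S : Submodule A V) :
    cm hn g (isotypicComponent A V S) = isotypicComponent A V (cm hn g S) := by
  change cmO hn g (sSup _) = sSup _
  rw [OrderIso.map_sSup, ← sSup_image]
  congr 1
  ext T
  constructor
  · rintro ⟨m, ⟨e⟩, rfl⟩
    exact ⟨cmE hn g e⟩
  · rintro ⟨e⟩
    refine ⟨cm hn g⁻¹ T, ?_, cm_inv' hn g T⟩
    have h1 := cmE hn g⁻¹ e
    rw [cm_inv] at h1
    exact ⟨h1⟩

/-- the action on the submodules -/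
private def act (hn : Nrm A ρ) : MulAction G (Submodule A V) where
  smul g W := cm hn g⁻¹ W
  one_smul W := by
    change cm hn 1⁻¹ W = W
    ext v
    rw [mem_cm, inv_one, map_one, Units.val_one, Module.End.one_apply]
  mul_smul g g' W := by
    change cm hn (g * g')⁻¹ W = cm hn g⁻¹ (cm hn g'⁻¹ W)
    ext v
    rw [mem_cm, mem_cm, mem_cm, _root_.mul_inv_rev, map_mul, Units.val_mul, Module.End.mul_apply]

private lemma cm_mem (hn : Nrm A ρ) (g : G) {W : Submodule A V} (hW : W ∈ isotypicComponents A V) :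
    cm hn g W ∈ isotypicComponents A V := by
  obtain ⟨S, hS, rfl⟩ := hW
  exact ⟨cm hn g S, cm_simple hn g hS, cm_iso hn g S⟩

private lemma semisimple [FiniteDimensional K V] (hn : Nrm A ρ)
    (hirr : ∀ W : Submodule K V, (∀ g, ∀ w ∈ W, (ρ g : Module.End K V) w ∈ W) → W = ⊥ ∨ W = ⊤) :
    IsSemisimpleModule A V := by
  haveI : IsArtinian A V := isArtinian_of_tower K inferInstance
  obtain ⟨Q, hQ⟩ : ∃ Q : Submodule A V, Q = sSup {m : Submodule A V | IsSimpleModule A m} := ⟨_, rfl⟩
  have h1 : ∀ g, cm hn g Q = Q := by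
    intro g
    have h2 : cmO hn g Q = Q := by
      rw [hQ, OrderIso.map_sSup, ← sSup_image]
      congr 1
      ext T
      constructor
      · rintro ⟨m, hm, rfl⟩
        exact cm_simple hn g hm
      · intro hT
        exact ⟨cm hn g⁻¹ T, cm_simple hn g⁻¹ hT, cm_inv' hn g T⟩
    exact h2
  have h3 := hirr (Q.restrictScalars K) fun g w hw => by
    rw [Submodule.restrictScalars_mem] at hw ⊢
    rw [← h1 g] at hw
    exact hw
  have h4 : Q = ⊤ := by
    rcases h3 with h3 | h3
    · rw [Submodule.restrictScalars_eq_bot_iff] at h3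
      rcases subsingleton_or_nontrivial V with hV | hV
      · exact Subsingleton.elim _ _
      · exfalso
        obtain ⟨S, hS⟩ := IsAtomic.exists_atom (Submodule A V)
        have h5 : S ≤ Q := by
          rw [hQ]
          exact le_sSup (isSimpleModule_iff_isAtom.2 hS)
        rw [h3] at h5
        exact hS.1 (le_bot_iff.1 h5)
    · rwa [Submodule.restrictScalars_eq_top_iff] at h3
  exact IsSemisimpleModule.of_sSup_simples_eq_top (by rw [← hQ, h4])

/-- a projection that commutes with `A` -/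
private lemma exists_proj (hss : IsSemisimpleModule A V) (W : Submodule A V) :
    ∃ q : V →ₗ[K] V, (∀ a : A, ∀ v, q ((a : Module.End K V) v) = (a : Module.End K V) (q v)) ∧
      (∀ v, q v ∈ W) ∧ ∀ v ∈ W, q v = v := by
  obtain ⟨W2, hc⟩ := hss.toComplementedLattice.exists_isCompl W
  let p : V →ₗ[A] W := Submodule.linearProjOfIsCompl W W2 hc
  refine ⟨{ toFun := fun v => (p v : V), map_add' := fun v w => ?_, map_smul' := fun c v => ?_ }, fun a v => ?_,
    fun v => (p v).2, fun v hv => ?_⟩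
  · rw [map_add]
    rfl
  · have h1 := map_smul p (algebraMap K A c) v
    rw [algebraMap_smul] at h1
    rw [h1]
    change (algebraMap K A c) • (p v : V) = _
    rw [algebraMap_smul]
    rfl
  · change (p (a • v) : V) = a • (p v : V)
    rw [map_smul]
    rfl
  · change (p v : V) = v
    exact congrArg Subtype.val (Submodule.linearProjOfIsCompl_apply_left hc ⟨v, hv⟩)

end aux

variable {n : Type*} [Fintype n] [DecidableEq n] {Γ : Subgroup (GL n ℂ)}

/-- the homomorphism to the linear automorphisms -/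
private noncomputable def rh (Γ : Subgroup (GL n ℂ)) : Γ →* (Module.End ℂ (n → ℂ))ˣ :=
  (Units.map (Matrix.toLinAlgEquiv' (R := ℂ) (n := n)).toAlgHom.toRingHom.toMonoidHom).comp Γ.subtype

private lemma rh_app (g : Γ) (v : n → ℂ) : (rh Γ g : Module.End ℂ (n → ℂ)) v = (g.1 : Matrix n n ℂ) *ᵥ v := rfl

/-- If `Γ` is irreducible and normalises `L`, and only the scalars commute with `L`, then `L` is irreducible. -/
theorem irr_of_comm (L : Submodule ℂ (Matrix n n ℂ))
    (hn : ∀ g ∈ Γ, ∀ X ∈ L, (g : Matrix n n ℂ) * X * ((g⁻¹ : GL n ℂ) : Matrix n n ℂ) ∈ L)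
    (hirr : ∀ W : Submodule ℂ (n → ℂ), (∀ g ∈ Γ, ∀ w ∈ W, (g : Matrix n n ℂ) *ᵥ w ∈ W) → W = ⊥ ∨ W = ⊤)
    (hcomm : ∀ T : Matrix n n ℂ, (∀ X ∈ L, T * X = X * T) → ∃ c : ℂ, T = c • (1 : Matrix n n ℂ))
    (W : Submodule ℂ (n → ℂ)) (hW : ∀ X ∈ L, ∀ w ∈ W, X *ᵥ w ∈ W) : W = ⊥ ∨ W = ⊤ := by
  obtain ⟨A, hA⟩ : ∃ A : Subalgebra ℂ (Module.End ℂ (n → ℂ)),
    A = Algebra.adjoin ℂ (Matrix.toLin' '' (L : Set (Matrix n n ℂ))) := ⟨_, rfl⟩
  have hsub : ∀ X ∈ L, Matrix.toLin' X ∈ A := fun X hX => by
    rw [hA]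
    exact Algebra.subset_adjoin ⟨X, hX, rfl⟩
  have hN : Nrm A (rh Γ) := by
    intro g a ha
    have hone : (rh Γ g : Module.End ℂ (n → ℂ)) * (rh Γ g⁻¹ : Module.End ℂ (n → ℂ)) = 1 := by
      rw [← Units.val_mul, ← map_mul, mul_inv_cancel, map_one, Units.val_one]
    have hone' : (rh Γ g⁻¹ : Module.End ℂ (n → ℂ)) * (rh Γ g : Module.End ℂ (n → ℂ)) = 1 := by
      rw [← Units.val_mul, ← map_mul, inv_mul_cancel, map_one, Units.val_one]
    rw [hA] at ha
    induction ha using Algebra.adjoin_induction with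
    | mem x hx =>
      obtain ⟨X, hX, rfl⟩ := hx
      have h1 := hsub _ (hn g.1 g.2 X hX)
      have h2 : (rh Γ g : Module.End ℂ (n → ℂ)) * Matrix.toLin' X * (rh Γ g⁻¹ : Module.End ℂ (n → ℂ)) =
          Matrix.toLin' ((g.1 : Matrix n n ℂ) * X * ((g.1⁻¹ : GL n ℂ) : Matrix n n ℂ)) := by
        rw [Matrix.toLin'_mul, Matrix.toLin'_mul]
        rfl
      rw [h2]
      exact h1
    | algebraMap r =>
      rw [← Algebra.commutes r, mul_assoc, hone, mul_one]
      exact A.algebraMap_mem r
    | add x y _ _ hx hy =>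
      rw [mul_add, add_mul]
      exact A.add_mem hx hy
    | mul x y _ _ hx hy =>
      have h3 := A.mul_mem hx hy
      have h4 : (rh Γ g : Module.End ℂ (n → ℂ)) * x * (rh Γ g⁻¹ : Module.End ℂ (n → ℂ)) *
          ((rh Γ g : Module.End ℂ (n → ℂ)) * y * (rh Γ g⁻¹ : Module.End ℂ (n → ℂ))) =
          (rh Γ g : Module.End ℂ (n → ℂ)) * x * ((rh Γ g⁻¹ : Module.End ℂ (n → ℂ)) *
          (rh Γ g : Module.End ℂ (n → ℂ))) * y * (rh Γ g⁻¹ : Module.End ℂ (n → ℂ)) := by
        simp only [mul_assoc]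
      rw [h4, hone', mul_one] at h3
      simpa only [mul_assoc] using h3
  haveI hss : IsSemisimpleModule A (n → ℂ) := semisimple hN fun U hU => hirr U fun g hg w hw => by
    rw [← rh_app ⟨g, hg⟩ w]
    exact hU ⟨g, hg⟩ w hw
  have hWA : ∀ a ∈ A, ∀ w ∈ W, a w ∈ W := by
    intro a ha
    rw [hA] at ha
    induction ha using Algebra.adjoin_induction with
    | mem x hx =>
      obtain ⟨X, hX, rfl⟩ := hx
      intro w hw
      rw [Matrix.toLin'_apply]
      exact hW X hX w hw
    | algebraMap r =>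
      intro w hw
      rw [Module.algebraMap_end_apply]
      exact W.smul_mem r hw
    | add x y _ _ hx hy =>
      intro w hw
      exact W.add_mem (hx w hw) (hy w hw)
    | mul x y _ _ hx hy =>
      intro w hw
      exact hx _ (hy w hw)
  let W' : Submodule A (n → ℂ) :=
    { carrier := W
      add_mem' := W.add_mem
      zero_mem' := W.zero_mem
      smul_mem' := fun a w hw => hWA a.1 a.2 w hw }
  obtain ⟨q, hqA, hp, hp1⟩ := exists_proj hss W'
  obtain ⟨c, hcc⟩ := hcomm (LinearMap.toMatrix' q) (by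
    intro X hX
    apply Matrix.toLin'.injective
    rw [Matrix.toLin'_mul, Matrix.toLin'_mul, Matrix.toLin'_toMatrix']
    refine LinearMap.ext fun v => ?_
    exact hqA (⟨Matrix.toLin' X, hsub X hX⟩ : A) v)
  have hq : ∀ v, q v = c • v := by
    intro v
    have h1 := congrArg Matrix.toLin' hcc
    rw [Matrix.toLin'_toMatrix', map_smul, Matrix.toLin'_one] at h1
    exact congrArg (fun f : (n → ℂ) →ₗ[ℂ] (n → ℂ) => f v) h1
  by_cases h0 : ∃ w ∈ W, w ≠ 0
  · obtain ⟨w, hw, hw0⟩ := h0
    right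
    rw [eq_top_iff]
    intro v _
    have h1 : c • w = w := by rw [← hq, hp1 w hw]
    have h2 : c = 1 := by
      have h3 : (c - 1) • w = 0 := by rw [sub_smul, one_smul, h1, sub_self]
      rcases smul_eq_zero.1 h3 with h4 | h4
      · exact sub_eq_zero.1 h4
      · exact absurd h4 hw0
    have h3 := hp v
    rw [hq, h2, one_smul] at h3
    exact h3
  · left
    push Not at h0
    rw [eq_bot_iff]
    intro w hw
    rw [Submodule.mem_bot]
    exact h0 w hw

end MH
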