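import Pool.Agent.Helper14.WH.Two
import Pool.Agent.Helper14.WH.Irr
import Pool.Agent.Helper14.PF.Fin

/-!
Project WH (MP_b8862a_ag): the tensors fixed by subgroups of finite index of the Galois group are the tensors fixed by the
Mumford-Tate group, if the group is generated by its cocharacters with the Hodge multiplicities, and the square of the common
divisor of the Hodge numbers is less than the dimension.
-/

set_option linter.unusedSectionVars false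

open Matrix GH OW

namespace MH

variable {n : Type*} [Fintype n] [DecidableEq n]

/-- The tensors fixed by the cocharacters `m_R` of the group with the Hodge multiplicities are fixed by a subgroup of
finite index. -/
def IsGen (w : ℤ) (Q : Matrix n n ℚ) (S : Finset ℤ) (P : ℤ → Matrix n n ℂ) (Γ : Subgroup (GL n ℂ)) : Prop :=
  ∀ (a b : ℕ) (t : (Fin a ⊕ Fin b → n) → ℂ),
    (∀ R : ℤ → Matrix n n ℂ, IsGalP w Q S P Γ R → ∀ z : ℂ, z ≠ 0 →
      actF (slot a b (∑ p ∈ S, z ^ p • R p) (∑ p ∈ S, z⁻¹ ^ p • R p)) t = t) → IsTateTensor Γ a b t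

/-- an ideal contains `h` or centralises it, if the multiplicities are indecomposable -/
theorem or_of_indec14 [Nonempty n] {Q' Qi : Matrix n n ℂ} (hQs : Q'ᵀ = Q') (hQ1 : Q' * Qi = 1) (hQ2 : Qi * Q' = 1)
    {L : Submodule ℂ (Matrix n n ℂ)} (hbr : ∀ X ∈ L, ∀ Y ∈ L, X * Y - Y * X ∈ L)
    (hcomL : ∀ T : Matrix n n ℂ, (∀ X ∈ L, T * X = X * T) → ∃ c : ℂ, T = c • (1 : Matrix n n ℂ))
    (hsk : ∀ X ∈ L, Xᵀ * Q' + Q' * X = 0) {h : Matrix n n ℂ} (hh : h ∈ L) {E : ℝ → Matrix n n ℂ} {Λ : Finset ℝ}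
    (hE : SD h E Λ) {m : ℤ} {r : ℤ → ℕ} (hw : ∀ μ : ℝ, E μ ≠ 0 → ∃ p : ℤ, μ = ((p - m : ℤ) : ℝ))
    (hr : ∀ p : ℤ, (E ((p - m : ℤ) : ℝ)).rank = r p) (hI : NI.Indec (2 * m) r) {B Bi : Matrix n n ℂ}
    (h1 : B * Bi = 1) (h2 : Bi * B = 1) (h3 : (cj B Bi h)ᴴ = cj B Bi h) (h4 : ∀ X ∈ L, cj Bi B (cj B Bi X)ᴴ ∈ L)
    (K : Submodule ℂ (Matrix n n ℂ)) (hK : K ≤ L) (hid : ∀ X ∈ L, ∀ Y ∈ K, X * Y - Y * X ∈ K) :
    h ∈ K ∨ ∀ Y ∈ K, h * Y = Y * h := by
  obtain ⟨D, f1, f2, hF⟩ := dat_gen14 (c0 := 1) (by norm_num) (by rw [hQs, one_smul]) hQ1 hQ2 hbr hcomL hsk hh hE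
    h1 h2 h3 h4
  rw [one_smul] at hF
  have hEE : ∀ μ, E μ * E μ = E μ := fun μ => by rw [hE.mul, if_pos rfl]
  have hKI := D.isI_of (K := LBB71 K B Bi) (fun y hy => hK hy) (LBB_ideal14 h1 hid)
  rcases D.h_mem_or f1 f2 hF (fun x => rfl) (m := m) (fun μ hμ => hw μ fun h0 => hμ (by rw [h0, cj_zero])) (by
      have e1 : (fun p : ℤ => (cj B Bi (E ((p - m : ℤ) : ℝ))).rank) = r := by
        funext p
        rw [rank_cj h1 h2 (hEE _), hr]
      rw [e1]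
      exact hI) hKI with h5 | h5
  · left
    rwa [mem_LBB71, cj_cj h2] at h5
  · right
    intro Y hY
    have hY' : cj B Bi Y ∈ LBB71 K B Bi := by rw [mem_LBB71, cj_cj h2]; exact hY
    have e1 := hKI.comm D.isI hY' h5
    have e2 := congrArg (cj Bi B) e1
    rw [← cj_mul h1, ← cj_mul h1, cj_cj h2, cj_cj h2] at e2
    exact e2.symm

/-- `L` is everything: a bracket closed irreducible space of skew matrices containing a family, with scalar commutant, of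
diagonalisable elements with indecomposable multiplicities that satisfy `Core`. -/
theorem full_fam14 [Nonempty n] (Q' Qi : Matrix n n ℂ) (hQs : Q'ᵀ = Q') (hQ1 : Q' * Qi = 1) (hQ2 : Qi * Q' = 1)
    (L : Submodule ℂ (Matrix n n ℂ)) (hbr : ∀ X ∈ L, ∀ Y ∈ L, X * Y - Y * X ∈ L)
    (hirr : ∀ W : Submodule ℂ (n → ℂ), (∀ X ∈ L, ∀ w ∈ W, X *ᵥ w ∈ W) → W = ⊥ ∨ W = ⊤)
    (hsk : ∀ X ∈ L, Xᵀ * Q' + Q' * X = 0) {m : ℤ} {r : ℤ → ℕ} (hI : NI.Indec (2 * m) r) (hcore : Core n m r)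
    (Hs : Set (Matrix n n ℂ)) (hne : Hs.Nonempty)
    (hHs : ∀ h ∈ Hs, h ∈ L ∧ ∃ (E : ℝ → Matrix n n ℂ) (Λ : Finset ℝ), SD h E Λ ∧
      (∀ μ : ℝ, E μ ≠ 0 → ∃ p : ℤ, μ = ((p - m : ℤ) : ℝ)) ∧ ∀ p : ℤ, (E ((p - m : ℤ) : ℝ)).rank = r p)
    (hcom : ∀ T : Matrix n n ℂ, (∀ h ∈ Hs, T * h = h * T) → ∃ c : ℂ, T = c • (1 : Matrix n n ℂ))
    (hg : ∀ q q' : ℕ, (∀ p, q ∣ r p) → (∀ p, q' ∣ r p) → q * q' < Fintype.card n)
    {X : Matrix n n ℂ} (hX : Xᵀ * Q' + Q' * X = 0) : X ∈ L := by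
  classical
  have htr : ∀ X ∈ L, X.trace = 0 := by
    intro Y hY
    have e1 : Yᵀ * Q' = -(Q' * Y) := eq_neg_of_add_eq_zero_left (hsk Y hY)
    have e2 : Y.trace = -Y.trace := by
      calc Y.trace = (Yᵀ * (Q' * Qi)).trace := by rw [hQ1, mul_one, Matrix.trace_transpose]
        _ = -(Q' * Y * Qi).trace := by rw [← mul_assoc, e1, neg_mul, Matrix.trace_neg]
        _ = -Y.trace := by rw [mul_assoc, Matrix.trace_mul_comm, mul_assoc, hQ2, mul_one]
    exact self_eq_neg.1 e2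
  have hcomL : ∀ T : Matrix n n ℂ, (∀ X ∈ L, T * X = X * T) → ∃ c : ℂ, T = c • (1 : Matrix n n ℂ) :=
    fun T hT => schur98 L hirr hT
  have hsmp : Smp L := by
    refine smp_fam14 (c0 := 1) (by norm_num) (by rw [hQs, one_smul]) hQ1 hQ2 hbr hcomL hsk Hs hne
      (fun q => ∀ p, q ∣ r p) ?_ hcom hg
    intro h hh
    obtain ⟨hhL, E, Λ, hE, hw, hr⟩ := hHs h hh
    obtain ⟨B, Bi, h1, h2, h3, h4⟩ := exists_herm L hbr hirr htr hhL hE
    exact ⟨hhL, or_of_indec14 hQs hQ1 hQ2 hbr hcomL hsk hhL hE hw hr hI h1 h2 h3 h4, E, Λ, hE,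
      fun q hq p => by rw [← hr p]; exact hq _, B, Bi, h1, h2, h3, h4⟩
  obtain ⟨h, hh⟩ := hne
  obtain ⟨hhL, E, Λ, hE, hw, hr⟩ := hHs h hh
  exact hcore Q' Qi hQs hQ1 hQ2 L hbr hirr hsk hsmp h E Λ hhL hE hw hr X hX

variable {m : ℤ} {Q : Matrix n n ℚ} {S : Finset ℤ} {P R : ℤ → Matrix n n ℂ} {Γ : Subgroup (GL n ℂ)}

theorem IsGal.comm_R (G : IsGal m Q S P Γ R) (c : ℤ) {T : Matrix n n ℂ}
    (hT : T * ∑ p ∈ S, ((p - c : ℤ) : ℂ) • R p = (∑ p ∈ S, ((p - c : ℤ) : ℂ) • R p) * T) (p : ℤ) :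
    T * R p = R p * T := by
  have h1 := (G.sd c).comm_E14 hT ((p - c : ℤ) : ℝ)
  rwa [G.EG_int] at h1

/-- All skew matrices kill the tensors fixed by subgroups of finite index of the Galois group. -/
theorem LG_full_fam14 [Nonempty n] (H : IsHS m Q S P) (G : IsGalP (2 * m) Q S P Γ R) (hirr : VIrr Γ)
    (hcom : ∀ T : Matrix n n ℂ, (∀ R : ℤ → Matrix n n ℂ, IsGalP (2 * m) Q S P Γ R → ∀ p, T * R p = R p * T) →
      ∃ c : ℂ, T = c • (1 : Matrix n n ℂ))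
    (hI : NI.Indec (2 * m) (fun p => (P p).rank)) (hcore : Core n m (fun p => (P p).rank))
    (hg : ∀ q q' : ℕ, (∀ p, q ∣ (P p).rank) → (∀ p, q' ∣ (P p).rank) → q * q' < Fintype.card n) :
    ∀ X : Matrix n n ℂ, Xᵀ * toC Q + toC Q * X = 0 → X ∈ LG Γ := by
  classical
  have hn0 : ((Fintype.card n : ℕ) : ℂ) ≠ 0 := by
    exact_mod_cast Fintype.card_ne_zero
  obtain ⟨B, Bi, Qi, _, _, hQ1, hQ2, _⟩ := H.exists_basis
  -- the Lie algebra `LG` is irreducible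
  have hG : ∀ W : Submodule ℂ (n → ℂ), (∀ X ∈ LG Γ, ∀ w ∈ W, X *ᵥ w ∈ W) → W = ⊥ ∨ W = ⊤ := by
    intro W hW
    refine irr_of_comm (LG Γ) (fun g hg X hX => LG_conj hg hX)
      (fun U hU => hirr Γ le_rfl (by rw [Subgroup.relIndex_self]; exact one_ne_zero) U hU) ?_ W hW
    intro T hT
    refine hcom T fun R' G' p => ?_
    refine G'.even.comm_R 0 ?_ p
    have e1 : ∑ p ∈ S, ((p - 0 : ℤ) : ℂ) • R' p = ∑ p ∈ S, (p : ℂ) • R' p := by simp
    rw [e1]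
    exact hT _ G'.even.h_mem
  -- scalars
  have hh0 : ∀ R', IsGal m Q S P Γ R' →
      ∑ p ∈ S, ((p - m : ℤ) : ℂ) • R' p = (∑ p ∈ S, (p : ℂ) • R' p) - (m : ℂ) • (1 : Matrix n n ℂ) := by
    intro R' G'
    rw [← G'.sum, Finset.smul_sum, ← Finset.sum_sub_distrib]
    refine Finset.sum_congr rfl fun p _ => ?_
    rw [← sub_smul]
    push_cast
    rfl
  have h1G : m ≠ 0 → (1 : Matrix n n ℂ) ∈ LG Γ := by
    intro hm
    have htr := trace_h0 H G.even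
    have h1 := scalar_mem (LG Γ) (fun X hX Y hY => LG_br hX hY) hG G.even.h_mem
    have h2 : (∑ p ∈ S, (p : ℂ) • R p).trace = (m : ℂ) * Fintype.card n := by
      rw [hh0 R G.even, Matrix.trace_sub, Matrix.trace_smul, Matrix.trace_one, smul_eq_mul] at htr
      linear_combination htr
    rw [h2] at h1
    have h3 := (LG Γ).smul_mem ((m : ℂ) * Fintype.card n)⁻¹ h1
    rwa [smul_smul, inv_mul_cancel₀ (mul_ne_zero (by exact_mod_cast hm) hn0), one_smul] at h3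
  have hh0G : ∀ R', IsGal m Q S P Γ R' → ∑ p ∈ S, ((p - m : ℤ) : ℂ) • R' p ∈ LG Γ := by
    intro R' G'
    rw [hh0 R' G']
    by_cases hm : m = 0
    · rw [hm, Int.cast_zero, zero_smul, sub_zero]
      exact G'.h_mem
    · exact (LG Γ).sub_mem G'.h_mem ((LG Γ).smul_mem _ (h1G hm))
  -- the skew part
  have hhS : ∀ R', IsGal m Q S P Γ R' → ∑ p ∈ S, ((p - m : ℤ) : ℂ) • R' p ∈ LS Q Γ := by
    intro R' G'
    refine ⟨hh0G R' G', ?_⟩
    have htr := trace_h0 H G'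
    obtain ⟨c, _, hc⟩ := G'.LG_sim H (hh0G R' G')
    set X := ∑ p ∈ S, ((p - m : ℤ) : ℂ) • R' p
    have h1 : (Xᵀ + toC Q * X * Qi).trace = c * Fintype.card n := by
      have h2 : Xᵀ + toC Q * X * Qi = c • (1 : Matrix n n ℂ) := by
        have h3 := congrArg (fun Y => Y * Qi) hc
        simp only [add_mul, smul_mul_assoc, hQ1] at h3
        rw [mul_assoc Xᵀ, hQ1, mul_one] at h3
        exact h3
      rw [h2, Matrix.trace_smul, Matrix.trace_one, smul_eq_mul]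
    rw [Matrix.trace_add, Matrix.trace_transpose, Matrix.trace_mul_comm, ← mul_assoc, hQ2, one_mul, htr,
      add_zero] at h1
    have h2 : c = 0 := by
      rcases mul_eq_zero.1 h1.symm with h | h
      · exact h
      · exact absurd h hn0
    rw [hc, h2, zero_smul]
  have hSirr : ∀ W : Submodule ℂ (n → ℂ), (∀ X ∈ LS Q Γ, ∀ w ∈ W, X *ᵥ w ∈ W) → W = ⊥ ∨ W = ⊤ := by
    intro W hW
    apply hG
    intro X hX w hw
    obtain ⟨c, hc0, hc⟩ := G.even.LG_sim H hX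
    by_cases hm : m = 0
    · exact hW X ⟨hX, by rw [hc, hc0 hm, zero_smul]⟩ w hw
    · have h1 : X - (c / 2) • (1 : Matrix n n ℂ) ∈ LS Q Γ := by
        refine ⟨(LG Γ).sub_mem hX ((LG Γ).smul_mem _ (h1G hm)), ?_⟩
        rw [Matrix.transpose_sub, Matrix.transpose_smul, Matrix.transpose_one, sub_mul, mul_sub, smul_mul_assoc,
          one_mul, mul_smul_comm, mul_one]
        have : Xᵀ * toC Q - (c / 2) • toC Q + (toC Q * X - (c / 2) • toC Q) =
            (Xᵀ * toC Q + toC Q * X) - c • toC Q := by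
          have h2 : c • toC Q = (c / 2) • toC Q + (c / 2) • toC Q := by
            rw [← add_smul]
            congr 1
            ring
          rw [h2]
          abel
        rw [this, hc, sub_self]
      have h2 := hW _ h1 w hw
      have h3 : X *ᵥ w = (X - (c / 2) • (1 : Matrix n n ℂ)) *ᵥ w + (c / 2) • w := by
        rw [Matrix.sub_mulVec, Matrix.smul_mulVec, Matrix.one_mulVec]
        abel
      rw [h3]
      exact W.add_mem h2 (W.smul_mem _ hw)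
  -- everything skew is in the Lie algebra
  intro X hX
  refine (full_fam14 (toC Q) Qi H.Q_symm hQ1 hQ2 (LS Q Γ) (fun X hX Y hY => LS_br hX hY) hSirr
      (fun X hX => hX.2) (m := m) (r := fun p => (P p).rank) hI hcore
      {Y | ∃ R' : ℤ → Matrix n n ℂ, IsGalP (2 * m) Q S P Γ R' ∧ Y = ∑ p ∈ S, ((p - m : ℤ) : ℂ) • R' p}
      ⟨_, R, G, rfl⟩ ?_ ?_ hg hX).1
  · rintro _ ⟨R', G', rfl⟩
    refine ⟨hhS R' G'.even, G'.even.EG m, LamS m S, G'.even.sd m, ?_, ?_⟩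
    · intro μ hμ
      by_contra hcon
      push Not at hcon
      apply hμ
      exact G'.even.EG_other m fun p _ h => hcon p h.symm
    · intro p
      rw [G'.even.EG_int, G'.even.rank]
  · intro T hT
    exact hcom T fun R' G' p => G'.even.comm_R m (hT _ ⟨R', G', rfl⟩) p

/-- **The tensors fixed by subgroups of finite index of the Galois group are the tensors fixed by the Mumford-Tate
group.** -/
theorem tate_iff_fam14 [Nonempty n] (H : IsHS m Q S P) (G : IsGalP (2 * m) Q S P Γ R) (hirr : VIrr Γ)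
    (hMT : ∀ (g : GL n ℂ) (z : ℂ), (m = 0 → z = 1) → (g : Matrix n n ℂ)ᵀ * toC Q * (g : Matrix n n ℂ) = z ^ 2 • toC Q →
      (g : Matrix n n ℂ).det = z ^ Fintype.card n → g ∈ MT S P)
    (hcom : ∀ T : Matrix n n ℂ, (∀ R : ℤ → Matrix n n ℂ, IsGalP (2 * m) Q S P Γ R → ∀ p, T * R p = R p * T) →
      ∃ c : ℂ, T = c • (1 : Matrix n n ℂ))
    (hI : NI.Indec (2 * m) (fun p => (P p).rank)) (hcore : Core n m (fun p => (P p).rank))
    (hg : ∀ q q' : ℕ, (∀ p, q ∣ (P p).rank) → (∀ p, q' ∣ (P p).rank) → q * q' < Fintype.card n)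
    (a b : ℕ) (t : (Fin a ⊕ Fin b → n) → ℂ) :
    IsTateTensor Γ a b t ↔ ∀ g ∈ MT S P, actF (slot a b (g : Matrix n n ℂ) ((g⁻¹ : GL n ℂ) : Matrix n n ℂ)) t = t :=
  tate_of_full H G.even hMT (LG_full_fam14 H G hirr hcom hI hcore hg) a b t

/-- generation and the tensors of type (1,1) give the scalar commutant -/
theorem IsHW.com_of_gen14 {w : ℤ} (H : IsHW w Q S P)
    (hEnd : ∀ A : Matrix n n ℚ, (∀ p, toC A * P p = P p * toC A) → ∃ c : ℚ, A = c • (1 : Matrix n n ℚ))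
    (hgen : IsGen w Q S P Γ) (h11 : ∀ t, IsTateTensor Γ 1 1 t → MTfix S P 1 1 t) (T : Matrix n n ℂ)
    (hT : ∀ R : ℤ → Matrix n n ℂ, IsGalP w Q S P Γ R → ∀ p, T * R p = R p * T) :
    ∃ c : ℂ, T = c • (1 : Matrix n n ℂ) := by
  refine H.fix_t11 hEnd (h11 _ (hgen 1 1 _ fun R' G' z hz => ?_))
  have e1 : (∑ p ∈ S, z ^ p • R' p) * (∑ p ∈ S, z⁻¹ ^ p • R' p) = 1 := by
    rw [Finset.sum_mul, ← G'.sum]
    refine Finset.sum_congr rfl fun p hp => ?_
    rw [Finset.mul_sum, Finset.sum_eq_single_of_mem p hp]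
    · rw [smul_mul_smul_comm, G'.mul, if_pos rfl, ← mul_zpow, mul_inv_cancel₀ hz, _root_.one_zpow, one_smul]
    · intro q _ hq
      rw [smul_mul_smul_comm, G'.mul, if_neg (Ne.symm hq), smul_zero]
  have e2 : (∑ p ∈ S, z ^ p • R' p) * T = T * ∑ p ∈ S, z ^ p • R' p := by
    rw [Finset.sum_mul, Finset.mul_sum]
    refine Finset.sum_congr rfl fun p _ => ?_
    rw [smul_mul_assoc, mul_smul_comm, hT R' G' p]
  rw [slot11, e2, mul_assoc, e1, mul_one]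

end MH
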