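import Pool.Agent.Helper14.WH.Two
import Pool.Agent.Helper98.PF.Aut

/-!
Project WH (MP_b8862a_ag): the ideals of an irreducible Lie algebra of matrices of trace zero, and a set of elements with
scalar commutant.
-/

set_option linter.unusedSectionVars false

open Matrix GH OW

namespace MH

variable {n : Type*} [Fintype n] [DecidableEq n]
variable {L : Submodule ℂ (Matrix n n ℂ)}

/-- `L` is a complex Lie algebra of matrices of trace zero, closed under the adjoint, with scalar commutant. -/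
structure Rd14 (L : Submodule ℂ (Matrix n n ℂ)) : Prop where
  tr : ∀ x ∈ L, x.trace = 0
  br : ∀ x ∈ L, ∀ y ∈ L, x * y - y * x ∈ L
  st : ∀ x ∈ L, xᴴ ∈ L
  irr : ∀ T : Matrix n n ℂ, (∀ x ∈ L, T * x = x * T) → ∃ c : ℂ, T = c • (1 : Matrix n n ℂ)

namespace Rd14

variable (D : Rd14 L)
include D

lemma isI : IsI L L := ⟨le_rfl, D.br, D.st⟩

/-- an element of `L` that commutes with `L` is zero -/
lemma cen_zero14 {x : Matrix n n ℂ} (hx : x ∈ L) (hc : ∀ y ∈ L, x * y = y * x) : x = 0 := by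
  obtain ⟨c, hc⟩ := D.irr x hc
  have h1 := D.tr x hx
  rw [hc, trace_smul, trace_one, smul_eq_mul] at h1
  rcases mul_eq_zero.mp h1 with h2 | h2
  · rw [hc, h2, zero_smul]
  · have h3 : Fintype.card n = 0 := by exact_mod_cast h2
    have h4 := Fintype.card_eq_zero_iff.mp h3
    ext i j
    exact h4.elim i

/-- every ideal of `L` is self-adjoint -/
theorem isI_of {K : Submodule ℂ (Matrix n n ℂ)} (hK : K ≤ L)
    (hid : ∀ X ∈ L, ∀ Y ∈ K, X * Y - Y * X ∈ K) : IsI L K := by
  -- the complement is an ideal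
  have hP : ∀ x ∈ L, ∀ w ∈ pp L K, x * w - w * x ∈ pp L K := by
    rintro x hx w ⟨hw, hw'⟩
    refine ⟨D.br x hx w hw, fun y hy => ?_⟩
    have h2 := hw' _ (hid _ (D.st x hx) y hy)
    rw [conjTranspose_sub, conjTranspose_mul, conjTranspose_mul, conjTranspose_conjTranspose,
      sub_mul, Matrix.trace_sub] at h2
    rw [mul_sub, Matrix.trace_sub, ← mul_assoc, ← mul_assoc, Matrix.trace_mul_comm (yᴴ * w) x,
      ← mul_assoc]
    exact h2
  have hdis : ∀ x ∈ K, x ∈ pp L K → x = 0 := fun x h1 h2 => IsI.disj h1 h2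
  have hcom : ∀ a ∈ K, ∀ w ∈ pp L K, a * w = w * a := by
    intro a ha w hw
    have h1 : a * w - w * a ∈ pp L K := hP a (hK ha) w hw
    have h2 : a * w - w * a ∈ K := by
      have := K.neg_mem (hid w hw.1 a ha)
      rwa [neg_sub] at this
    exact sub_eq_zero.1 (hdis _ h2 h1)
  -- `Kᴴ ∩ P = 0`
  have hC : ∀ y ∈ pp L K, yᴴ ∈ K → y = 0 := by
    intro y hy hy'
    refine D.cen_zero14 hy.1 fun z hz => ?_
    have h1 : z * y - y * z ∈ pp L K := hP z hz y hy
    have h2 : (z * y - y * z)ᴴ ∈ K := by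
      rw [conjTranspose_sub, conjTranspose_mul, conjTranspose_mul]
      have := K.neg_mem (hid _ (D.st z hz) _ hy')
      rwa [neg_sub] at this
    have h3 : ((z * y - y * z)ᴴ * (z * y - y * z)).trace = 0 := by
      have e1 := hcom _ h2 y hy
      generalize (z * y - y * z)ᴴ = w at e1
      rw [mul_sub, Matrix.trace_sub, ← mul_assoc, ← mul_assoc, e1, Matrix.trace_mul_comm (w * z) y, mul_assoc, sub_self]
    have h4 : z * y - y * z = 0 := by
      apply eq_zero_of_trace
      rw [h3]; rfl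
    exact (sub_eq_zero.1 h4).symm
  refine ⟨hK, hid, fun x hx => ?_⟩
  have hxs : ∀ w ∈ pp L K, xᴴ * w = w * xᴴ := by
    intro w hw
    have h1 : w * xᴴ - xᴴ * w ∈ pp L K := by
      have := (pp L K).neg_mem (hP _ (D.st x (hK hx)) w hw)
      rwa [neg_sub] at this
    have h2 : (w * xᴴ - xᴴ * w)ᴴ ∈ K := by
      rw [conjTranspose_sub, conjTranspose_mul, conjTranspose_mul, conjTranspose_conjTranspose]
      have := K.neg_mem (hid _ (D.st w hw.1) x hx)
      rwa [neg_sub] at this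
    exact (sub_eq_zero.1 (hC _ h1 h2)).symm
  obtain ⟨u, hu, hu'⟩ := decomp (I := K) xᴴ
  have hy : xᴴ - u ∈ pp L K := ⟨L.sub_mem (D.st x (hK hx)) (hK hu), hu'⟩
  have h0 : xᴴ - u = 0 := by
    refine D.cen_zero14 hy.1 fun z hz => ?_
    obtain ⟨a, ha, ha'⟩ := decomp (I := K) z
    have hb : z - a ∈ pp L K := ⟨L.sub_mem hz (hK ha), ha'⟩
    have e1 := hcom a ha _ hy
    have e2 : (xᴴ - u) * (z - a) = (z - a) * (xᴴ - u) := by
      rw [sub_mul, mul_sub (z - a), hxs _ hb, hcom u hu _ hb]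
    have e3 : z = a + (z - a) := by abel
    rw [e3, mul_add, add_mul, e1, e2]
  rw [sub_eq_zero.1 h0]
  exact hu

/-- the algebra generated by an ideal has trivial centre -/
theorem adj_cen {K : Submodule ℂ (Matrix n n ℂ)} (hK : IsI L K) {a : Matrix n n ℂ}
    (ha : a ∈ Algebra.adjoin ℂ (K : Set (Matrix n n ℂ)))
    (hc : ∀ b ∈ Algebra.adjoin ℂ (K : Set (Matrix n n ℂ)), a * b = b * a) : ∃ c : ℂ, a = c • (1 : Matrix n n ℂ) := by
  refine D.irr a fun x hx => ?_
  obtain ⟨j, hj, hj'⟩ := decomp (I := K) x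
  have hk : x - j ∈ pp L K := ⟨L.sub_mem hx (hK.le hj), hj'⟩
  have e1 := hc j (Algebra.subset_adjoin hj)
  have e2 := Dat.adj_comm (fun b hb => hK.comm D.isI hb hk) ha
  have e3 : x = j + (x - j) := by abel
  rw [e3, mul_add, add_mul, e1, e2]

/-- the trace of a product of elements of the two algebras -/
theorem tr_prod {J : Submodule ℂ (Matrix n n ℂ)} (hJ : IsI L J)
    {y a : Matrix n n ℂ} (hy : y ∈ Algebra.adjoin ℂ (J : Set (Matrix n n ℂ)))
    (ha : a ∈ Algebra.adjoin ℂ (pp L J : Set (Matrix n n ℂ))) :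
    (Fintype.card n : ℂ) * (y * a).trace = y.trace * a.trace := by
  classical
  have hL := D.isI
  let C : Submodule ℂ (Matrix n n ℂ) := Submodule.span ℂ
    {x | ∃ p ∈ Algebra.adjoin ℂ (J : Set (Matrix n n ℂ)),
      ∃ q ∈ Algebra.adjoin ℂ (J : Set (Matrix n n ℂ)), x = p * q - q * p}
  obtain ⟨x1, hx1, hx1'⟩ := decomp (I := C) y
  have hCle : ∀ x ∈ C, x ∈ Algebra.adjoin ℂ (J : Set (Matrix n n ℂ)) := by
    intro x hx
    induction hx using Submodule.span_induction with
    | mem x hx =>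
      obtain ⟨p, hp, q, hq, rfl⟩ := hx
      exact sub_mem (mul_mem hp hq) (mul_mem hq hp)
    | zero => exact zero_mem _
    | add x y _ _ hx hy => exact add_mem hx hy
    | smul r x _ hx => exact Subalgebra.smul_mem _ hx r
  have htr : ∀ x ∈ C, (x * a).trace = 0 ∧ x.trace = 0 := by
    intro x hx
    induction hx using Submodule.span_induction with
    | mem x hx =>
      obtain ⟨p, hp, q, hq, rfl⟩ := hx
      constructor
      · have h1 := Dat.adj_comm2 hJ hL hq ha
        rw [sub_mul, Matrix.trace_sub, mul_assoc p, h1, ← mul_assoc, Matrix.trace_mul_comm (p * a),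
          ← mul_assoc, sub_self]
      · rw [Matrix.trace_sub, Matrix.trace_mul_comm, sub_self]
    | zero => simp
    | add x y _ _ hx hy =>
      rw [add_mul, Matrix.trace_add, Matrix.trace_add, hx.1, hx.2, hy.1, hy.2]
      exact ⟨add_zero _, add_zero _⟩
    | smul r x _ hx =>
      rw [smul_mul_assoc, Matrix.trace_smul, Matrix.trace_smul, hx.1, hx.2]
      exact ⟨smul_zero _, smul_zero _⟩
  set z := y - x1 with hz
  have hzA : z ∈ Algebra.adjoin ℂ (J : Set (Matrix n n ℂ)) := sub_mem hy (hCle x1 hx1)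
  have hzc : ∀ w ∈ Algebra.adjoin ℂ (J : Set (Matrix n n ℂ)), z * w = w * z := by
    intro w hw
    have hq : z * w - w * z ∈ Algebra.adjoin ℂ (J : Set (Matrix n n ℂ)) :=
      sub_mem (mul_mem hzA hw) (mul_mem hw hzA)
    set q := z * w - w * z with hqdef
    have hw' := Dat.adj_star hJ.st hw
    have h1 : q * wᴴ - wᴴ * q ∈ C := Submodule.subset_span ⟨q, hq, wᴴ, hw', rfl⟩
    have h2 := hx1' _ h1
    rw [conjTranspose_sub, conjTranspose_mul, conjTranspose_mul, conjTranspose_conjTranspose,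
      sub_mul, Matrix.trace_sub] at h2
    have h3 : (qᴴ * q).trace = 0 := by
      rw [hqdef, mul_sub, Matrix.trace_sub, ← hqdef, ← mul_assoc, ← mul_assoc,
        Matrix.trace_mul_comm (qᴴ * z) w, ← mul_assoc]
      exact h2
    have h4 : q = 0 := by
      apply eq_zero_of_trace
      rw [h3]; rfl
    exact sub_eq_zero.mp (by rw [← hqdef]; exact h4)
  obtain ⟨c, hc⟩ := D.irr z (by
    intro x hx
    obtain ⟨j, hj, hj'⟩ := decomp (I := J) x
    have hk : x - j ∈ pp L J := ⟨L.sub_mem hx (hJ.le hj), hj'⟩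
    have e1 := hzc j (Algebra.subset_adjoin hj)
    have e2 := Dat.adj_comm2 hJ hL hzA (Algebra.subset_adjoin hk)
    have e3 : x = j + (x - j) := by abel
    rw [e3, mul_add, add_mul, e1, e2])
  have hy' : y = x1 + c • (1 : Matrix n n ℂ) := by rw [← hc, hz]; abel
  obtain ⟨t1, t2⟩ := htr x1 hx1
  rw [hy', add_mul, Matrix.trace_add, t1, Matrix.trace_add, t2, smul_mul_assoc, one_mul,
    Matrix.trace_smul, Matrix.trace_smul, Matrix.trace_one, smul_eq_mul, smul_eq_mul]
  ring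

/-- the dimensions of the algebras generated by an ideal and by its complement -/
theorem dim_le [Nonempty n] {J : Submodule ℂ (Matrix n n ℂ)} (hJ : IsI L J) :
    Module.finrank ℂ (Algebra.adjoin ℂ (J : Set (Matrix n n ℂ))) *
      Module.finrank ℂ (Algebra.adjoin ℂ (pp L J : Set (Matrix n n ℂ))) ≤ Fintype.card n * Fintype.card n := by
  classical
  obtain ⟨A, hA⟩ : ∃ A : Submodule ℂ (Matrix n n ℂ),
    A = Subalgebra.toSubmodule (Algebra.adjoin ℂ (J : Set (Matrix n n ℂ))) := ⟨_, rfl⟩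
  obtain ⟨A', hA'⟩ : ∃ A' : Submodule ℂ (Matrix n n ℂ),
    A' = Subalgebra.toSubmodule (Algebra.adjoin ℂ (pp L J : Set (Matrix n n ℂ))) := ⟨_, rfl⟩
  have mA : ∀ {a}, a ∈ A → a ∈ Algebra.adjoin ℂ (J : Set (Matrix n n ℂ)) := fun {a} ha => by
    rw [hA] at ha
    exact ha
  have mA' : ∀ {a}, a ∈ A' → a ∈ Algebra.adjoin ℂ (pp L J : Set (Matrix n n ℂ)) := fun {a} ha => by
    rw [hA'] at ha
    exact ha
  have e1 : Module.finrank ℂ (Algebra.adjoin ℂ (J : Set (Matrix n n ℂ))) = Module.finrank ℂ A := by rw [hA]; rfl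
  have e2 : Module.finrank ℂ (Algebra.adjoin ℂ (pp L J : Set (Matrix n n ℂ))) = Module.finrank ℂ A' := by
    rw [hA']; rfl
  rw [e1, e2]
  obtain ⟨u, hu, huu, -⟩ := exists_onb98 A
  obtain ⟨v, hv, hvv, -⟩ := exists_onb98 A'
  have hN : (Fintype.card n : ℂ) ≠ 0 := by exact_mod_cast Fintype.card_ne_zero
  have hJp := hJ.perp D.isI
  have key : ∀ i j k l, (((u i * v j)ᴴ * (u k * v l)).trace : ℂ) =
      if (i, j) = (k, l) then (Fintype.card n : ℂ)⁻¹ else 0 := by
    intro i j k l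
    have c1 : (v j)ᴴ ∈ Algebra.adjoin ℂ (pp L J : Set (Matrix n n ℂ)) := Dat.adj_star hJp.st (mA' (hv j))
    have c2 : (u i)ᴴ ∈ Algebra.adjoin ℂ (J : Set (Matrix n n ℂ)) := Dat.adj_star hJ.st (mA (hu i))
    have e3 : (u i * v j)ᴴ * (u k * v l) = ((u i)ᴴ * u k) * ((v j)ᴴ * v l) := by
      rw [conjTranspose_mul]
      have e4 := Dat.adj_comm2 hJ D.isI (mul_mem c2 (mA (hu k))) c1
      calc (v j)ᴴ * (u i)ᴴ * (u k * v l) = (v j)ᴴ * ((u i)ᴴ * u k) * v l := by simp only [mul_assoc]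
        _ = _ := by rw [← e4]; simp only [mul_assoc]
    have e5 := D.tr_prod hJ (mul_mem c2 (mA (hu k))) (mul_mem c1 (mA' (hv l)))
    rw [← e3, huu, hvv] at e5
    have e6 : ((u i * v j)ᴴ * (u k * v l)).trace = (Fintype.card n : ℂ)⁻¹ *
        ((if i = k then 1 else 0) * (if j = l then 1 else 0)) := by
      rw [← e5, inv_mul_cancel_left₀ hN]
    rw [e6]
    by_cases h1 : i = k
    · by_cases h2 : j = l
      · rw [if_pos h1, if_pos h2, if_pos (by rw [h1, h2]), mul_one, mul_one]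
      · rw [if_pos h1, if_neg h2, if_neg (fun h => h2 (Prod.mk.inj h).2), mul_zero, mul_zero]
    · rw [if_neg h1, if_neg (fun h => h1 (Prod.mk.inj h).1), zero_mul, mul_zero]
  have hli : LinearIndependent ℂ (fun x : Fin (Module.finrank ℂ A) × Fin (Module.finrank ℂ A') => u x.1 * v x.2) := by
    rw [Fintype.linearIndependent_iff]
    rintro g hg ⟨k, l⟩
    have h1 := congrArg (fun M => ((u k * v l)ᴴ * M).trace) hg
    simp only [mul_zero, Matrix.trace_zero, Finset.mul_sum, Matrix.trace_sum, mul_smul_comm, Matrix.trace_smul,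
      smul_eq_mul] at h1
    rw [Finset.sum_eq_single (k, l)] at h1
    · rw [key, if_pos rfl] at h1
      rcases mul_eq_zero.1 h1 with h2 | h2
      · exact h2
      · exact absurd h2 (inv_ne_zero hN)
    · rintro ⟨i, j⟩ _ hij
      rw [key, if_neg (Ne.symm hij), mul_zero]
    · intro h2
      exact absurd (Finset.mem_univ _) h2
  have h1 := hli.fintype_card_le_finrank
  rw [Fintype.card_prod, Fintype.card_fin, Fintype.card_fin, Module.finrank_matrix, Module.finrank_self, mul_one] at h1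
  exact h1

/-- the complement of an ideal is its centraliser -/
theorem mem_pp {K : Submodule ℂ (Matrix n n ℂ)} (hK : IsI L K) {x : Matrix n n ℂ} (hx : x ∈ L)
    (hc : ∀ y ∈ K, x * y = y * x) : x ∈ pp L K := by
  obtain ⟨k, hk, hk'⟩ := decomp (I := K) x
  have hp : x - k ∈ pp L K := ⟨L.sub_mem hx (hK.le hk), hk'⟩
  have h0 : k = 0 := by
    refine D.cen_zero14 (hK.le hk) fun y hy => ?_
    obtain ⟨a, ha, ha'⟩ := decomp (I := K) y
    have hb : y - a ∈ pp L K := ⟨L.sub_mem hy (hK.le ha), ha'⟩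
    have e1 : k * a = a * k := by
      have e2 := hK.comm D.isI ha hp
      rw [mul_sub, sub_mul, hc a ha] at e2
      exact (sub_right_injective e2).symm
    have e2 := hK.comm D.isI hk hb
    have e3 : y = a + (y - a) := by abel
    rw [e3, mul_add, add_mul, e1, e2]
  rw [h0, sub_zero] at hp
  exact hp


/-- the two algebras generate everything -/
theorem dim_ge [Nonempty n] {J : Submodule ℂ (Matrix n n ℂ)} (hJ : IsI L J) :
    Fintype.card n * Fintype.card n ≤ Module.finrank ℂ (Algebra.adjoin ℂ (J : Set (Matrix n n ℂ))) *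
      Module.finrank ℂ (Algebra.adjoin ℂ (pp L J : Set (Matrix n n ℂ))) := by
  classical
  obtain ⟨A, hA⟩ : ∃ A : Submodule ℂ (Matrix n n ℂ),
    A = Subalgebra.toSubmodule (Algebra.adjoin ℂ (J : Set (Matrix n n ℂ))) := ⟨_, rfl⟩
  obtain ⟨A', hA'⟩ : ∃ A' : Submodule ℂ (Matrix n n ℂ),
    A' = Subalgebra.toSubmodule (Algebra.adjoin ℂ (pp L J : Set (Matrix n n ℂ))) := ⟨_, rfl⟩
  have mA : ∀ {a}, a ∈ A ↔ a ∈ Algebra.adjoin ℂ (J : Set (Matrix n n ℂ)) := fun {a} => by
    rw [hA]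
    rfl
  have mA' : ∀ {a}, a ∈ A' ↔ a ∈ Algebra.adjoin ℂ (pp L J : Set (Matrix n n ℂ)) := fun {a} => by
    rw [hA']
    rfl
  have e1 : Module.finrank ℂ (Algebra.adjoin ℂ (J : Set (Matrix n n ℂ))) = Module.finrank ℂ A := by rw [hA]; rfl
  have e2 : Module.finrank ℂ (Algebra.adjoin ℂ (pp L J : Set (Matrix n n ℂ))) = Module.finrank ℂ A' := by
    rw [hA']; rfl
  rw [e1, e2]
  obtain ⟨u, hu, -, hu'⟩ := exists_onb98 A
  obtain ⟨v, hv, -, hv'⟩ := exists_onb98 A'
  obtain ⟨f, hf⟩ : ∃ f : Fin (Module.finrank ℂ A) × Fin (Module.finrank ℂ A') → Matrix n n ℂ,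
    f = fun x => u x.1 * v x.2 := ⟨_, rfl⟩
  have hAB : ∀ a ∈ A, ∀ b ∈ A', a * b ∈ Submodule.span ℂ (Set.range f) := by
    intro a ha b hb
    rw [hu' a ha, hv' b hb, Finset.sum_mul]
    refine Submodule.sum_mem _ fun i _ => ?_
    rw [Finset.mul_sum]
    refine Submodule.sum_mem _ fun j _ => ?_
    rw [smul_mul_smul_comm]
    exact Submodule.smul_mem _ _ (Submodule.subset_span ⟨(i, j), by rw [hf]⟩)
  have hmul : ∀ x ∈ Submodule.span ℂ (Set.range f), ∀ y ∈ Submodule.span ℂ (Set.range f),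
      x * y ∈ Submodule.span ℂ (Set.range f) := by
    intro x hx y hy
    induction hx using Submodule.span_induction with
    | mem x hx =>
      obtain ⟨⟨i, j⟩, rfl⟩ := hx
      induction hy using Submodule.span_induction with
      | mem y hy =>
        obtain ⟨⟨k, l⟩, rfl⟩ := hy
        rw [hf]
        change u i * v j * (u k * v l) ∈ _
        have e3 : u i * v j * (u k * v l) = (u i * u k) * (v j * v l) := by
          have e4 := Dat.adj_comm2 hJ D.isI (mA.1 (hu k)) (mA'.1 (hv j))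
          calc u i * v j * (u k * v l) = u i * (v j * u k) * v l := by simp only [mul_assoc]
            _ = _ := by rw [← e4]; simp only [mul_assoc]
        rw [e3, ← hf]
        exact hAB _ (mA.2 (mul_mem (mA.1 (hu i)) (mA.1 (hu k)))) _ (mA'.2 (mul_mem (mA'.1 (hv j)) (mA'.1 (hv l))))
      | zero => rw [mul_zero]; exact Submodule.zero_mem _
      | add y z _ _ hy hz => rw [mul_add]; exact Submodule.add_mem _ hy hz
      | smul c y _ hy => rw [mul_smul_comm]; exact Submodule.smul_mem _ _ hy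
    | zero => rw [zero_mul]; exact Submodule.zero_mem _
    | add x z _ _ hx hz => rw [add_mul]; exact Submodule.add_mem _ hx hz
    | smul c x _ hx => rw [smul_mul_assoc]; exact Submodule.smul_mem _ _ hx
  have hone : (1 : Matrix n n ℂ) ∈ Submodule.span ℂ (Set.range f) := by
    have := hAB 1 (mA.2 (one_mem _)) 1 (mA'.2 (one_mem _))
    rwa [mul_one] at this
  have hLS : ∀ x ∈ Algebra.adjoin ℂ (L : Set (Matrix n n ℂ)), x ∈ Submodule.span ℂ (Set.range f) := by
    intro x hx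
    induction hx using Algebra.adjoin_induction with
    | mem x hx =>
      obtain ⟨a, ha, ha'⟩ := decomp (I := J) x
      have hb : x - a ∈ pp L J := ⟨L.sub_mem hx (hJ.le ha), ha'⟩
      have h1 := hAB a (mA.2 (Algebra.subset_adjoin ha)) 1 (mA'.2 (one_mem _))
      have h2 := hAB 1 (mA.2 (one_mem _)) (x - a) (mA'.2 (Algebra.subset_adjoin hb))
      rw [mul_one] at h1
      rw [one_mul] at h2
      have := Submodule.add_mem _ h1 h2
      rwa [add_sub_cancel] at this
    | algebraMap c =>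
      rw [Algebra.algebraMap_eq_smul_one]
      exact Submodule.smul_mem _ _ hone
    | add x y _ _ hx hy => exact Submodule.add_mem _ hx hy
    | mul x y _ _ hx hy => exact hmul x hx y hy
  have htop : Algebra.adjoin ℂ (L : Set (Matrix n n ℂ)) = ⊤ :=
    full_of_comm98 _ (fun a ha => Dat.adj_star D.st ha) fun T hT =>
      D.irr T fun x hx => hT x (Algebra.subset_adjoin hx)
  have h1 : Submodule.span ℂ (Set.range f) = ⊤ := by
    rw [eq_top_iff]
    intro x _
    exact hLS x (by rw [htop]; trivial)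
  have h2 := finrank_range_le_card (R := ℂ) f
  rw [Set.finrank, h1, finrank_top, Module.finrank_matrix, Module.finrank_self, mul_one, Fintype.card_prod,
    Fintype.card_fin, Fintype.card_fin] at h2
  exact h2

end Rd14

/-- the Lie algebra in a basis in which it is closed under the adjoint -/
theorem Rd14.of_basis {B Bi : Matrix n n ℂ} (h1 : B * Bi = 1) (h2 : Bi * B = 1)
    (hbr : ∀ X ∈ L, ∀ Y ∈ L, X * Y - Y * X ∈ L)
    (hcom : ∀ T : Matrix n n ℂ, (∀ X ∈ L, T * X = X * T) → ∃ c : ℂ, T = c • (1 : Matrix n n ℂ))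
    (htr : ∀ X ∈ L, X.trace = 0) (h4 : ∀ X ∈ L, cj Bi B (cj B Bi X)ᴴ ∈ L) : Rd14 (LBB71 L B Bi) where
  tr := by
    intro x hx
    have e1 := htr _ (mem_LBB71.1 hx)
    unfold cj at e1
    rw [Matrix.trace_mul_comm, ← mul_assoc, h1, one_mul] at e1
    exact e1
  br := LBB_ideal14 h1 hbr
  st := by
    intro x hx
    have e1 := h4 _ (mem_LBB71.1 hx)
    rwa [cj_cj h1] at e1
  irr := by
    intro T hT
    obtain ⟨c, hc⟩ := hcom (cj Bi B T) (by
      intro X hX
      have e1 := hT (cj B Bi X) (by rw [mem_LBB71, cj_cj h2]; exact hX)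
      have e2 := congrArg (cj Bi B) e1
      rwa [← cj_mul h1, ← cj_mul h1, cj_cj h2] at e2)
    refine ⟨c, ?_⟩
    have e3 := congrArg (cj B Bi) hc
    rwa [cj_cj h1, cj_smul, cj_one h1] at e3

/-- **A set of elements with scalar commutant.** An irreducible Lie algebra `L` of matrices of trace zero has no proper
ideals if every ideal contains or centralises every element of a set with scalar commutant, and the dimension is not a
product `q q'` with `q, q' ≥ 2`, `q` a common divisor of the multiplicities of an element of the set and `q'` a common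
divisor of the multiplicities of another one. -/
theorem smp_set14 [Nonempty n] {L : Submodule ℂ (Matrix n n ℂ)} (hbr : ∀ X ∈ L, ∀ Y ∈ L, X * Y - Y * X ∈ L)
    (hirr : ∀ W : Submodule ℂ (n → ℂ), (∀ X ∈ L, ∀ w ∈ W, X *ᵥ w ∈ W) → W = ⊥ ∨ W = ⊤)
    (htr : ∀ X ∈ L, X.trace = 0) (Hs : Set (Matrix n n ℂ)) (hne : Hs.Nonempty) (Gd : Matrix n n ℂ → ℕ → Prop)
    (hHs : ∀ h ∈ Hs, h ∈ L ∧ (∀ K ≤ L, (∀ X ∈ L, ∀ Y ∈ K, X * Y - Y * X ∈ K) → h ∈ K ∨ ∀ Y ∈ K, h * Y = Y * h) ∧
      ∃ (E : ℝ → Matrix n n ℂ) (Λ : Finset ℝ), SD h E Λ ∧ ∀ q : ℕ, (∀ μ, q ∣ (E μ).rank) → Gd h q)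
    (hcom : ∀ T : Matrix n n ℂ, (∀ h ∈ Hs, T * h = h * T) → ∃ c : ℂ, T = c • (1 : Matrix n n ℂ))
    (hg : ∀ h ∈ Hs, ∀ g ∈ Hs, ∀ q q' : ℕ, 2 ≤ q → 2 ≤ q' → q * q' = Fintype.card n → Gd h q → Gd g q' → False) :
    Smp L := by
  classical
  have hcomL : ∀ T : Matrix n n ℂ, (∀ X ∈ L, T * X = X * T) → ∃ c : ℂ, T = c • (1 : Matrix n n ℂ) :=
    fun T hT => schur98 L hirr hT
  have hsc : ∀ X ∈ L, (∀ h ∈ Hs, X * h = h * X) → X = 0 := by
    intro X hX hc
    obtain ⟨c, hc⟩ := hcom X hc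
    have h1 := htr X hX
    rw [hc, Matrix.trace_smul, Matrix.trace_one, smul_eq_mul] at h1
    rcases mul_eq_zero.1 h1 with h2 | h2
    · rw [hc, h2, zero_smul]
    · exact absurd h2 (by exact_mod_cast Fintype.card_ne_zero)
  intro K hK hid
  by_cases hA : ∀ h ∈ Hs, h ∈ K
  · -- every element is in the ideal
    right
    refine le_antisymm hK fun x hx => ?_
    obtain ⟨h, hh⟩ := hne
    obtain ⟨hhL, -, E, Λ, hE, -⟩ := hHs h hh
    obtain ⟨B, Bi, h1, h2, h3, h4⟩ := exists_herm L hbr hirr htr hhL hE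
    have D := Rd14.of_basis h1 h2 hbr hcomL htr h4
    have hKI := D.isI_of (K := LBB71 K B Bi) (fun y hy => hK hy) (LBB_ideal14 h1 hid)
    obtain ⟨a, ha, ha'⟩ := decomp (I := LBB71 K B Bi) (cj B Bi x)
    have hxL : cj B Bi x ∈ LBB71 L B Bi := by rw [mem_LBB71, cj_cj h2]; exact hx
    have hb : cj B Bi x - a ∈ pp (LBB71 L B Bi) (LBB71 K B Bi) :=
      ⟨Submodule.sub_mem _ hxL (hKI.le ha), ha'⟩
    have h0 : cj Bi B (cj B Bi x - a) = 0 := by
      refine hsc _ (mem_LBB71.1 hb.1) fun g hg' => ?_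
      have hgK : cj B Bi g ∈ LBB71 K B Bi := by rw [mem_LBB71, cj_cj h2]; exact hA g hg'
      have e1 := hKI.comm D.isI hgK hb
      have e2 := congrArg (cj Bi B) e1
      rw [← cj_mul h1, ← cj_mul h1, cj_cj h2] at e2
      exact e2.symm
    have h5 : cj B Bi x - a = 0 := by
      have e1 := congrArg (cj B Bi) h0
      rwa [cj_cj h1, cj_zero] at e1
    have h6 : cj B Bi x ∈ LBB71 K B Bi := by rw [sub_eq_zero.1 h5]; exact ha
    rw [mem_LBB71, cj_cj h2] at h6
    exact h6
  by_cases hB : ∀ h ∈ Hs, ∀ Y ∈ K, h * Y = Y * h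
  · -- every element centralises the ideal
    left
    rw [eq_bot_iff]
    intro Y hY
    rw [Submodule.mem_bot]
    exact hsc Y (hK hY) fun h hh => (hB h hh Y hY).symm
  exfalso
  push Not at hA hB
  obtain ⟨g, hgs, hgK⟩ := hA
  obtain ⟨h, hh, hhK⟩ := hB
  obtain ⟨hgL, hgor, F, Λ', hF, hFG⟩ := hHs g hgs
  have hgc : ∀ Y ∈ K, g * Y = Y * g := (hgor K hK hid).resolve_left hgK
  obtain ⟨hhL, hhor, E, Λ, hE, hEG⟩ := hHs h hh
  obtain ⟨B, Bi, h1, h2, h3, h4⟩ := exists_herm L hbr hirr htr hhL hE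
  have hhK' : h ∈ K := by
    refine (hhor K hK hid).resolve_right fun hcon => ?_
    obtain ⟨Y, hY, hY'⟩ := hhK
    exact hY' (hcon Y hY)
  have D := Rd14.of_basis h1 h2 hbr hcomL htr h4
  have hKI := D.isI_of (K := LBB71 K B Bi) (fun y hy => hK hy) (LBB_ideal14 h1 hid)
  have hPI := hKI.perp D.isI
  have hhK2 : cj B Bi h ∈ LBB71 K B Bi := by rw [mem_LBB71, cj_cj h2]; exact hhK'
  have hgP : cj B Bi g ∈ pp (LBB71 L B Bi) (LBB71 K B Bi) := by
    refine D.mem_pp hKI (by rw [mem_LBB71, cj_cj h2]; exact hgL) fun y hy => ?_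
    have e1 := congrArg (cj B Bi) (hgc _ (mem_LBB71.1 hy))
    rwa [← cj_mul h2, ← cj_mul h2, cj_cj h1] at e1
  obtain ⟨d, q, hd, hq, hn, hfin, hdvd⟩ := alg_rank_sd (sd_cj98 hE h1 h2)
    (Algebra.adjoin ℂ (LBB71 K B Bi : Set (Matrix n n ℂ)))
    (fun a ha => Dat.adj_star hKI.st ha) (fun a ha hc => D.adj_cen hKI ha hc) (Algebra.subset_adjoin hhK2)
  obtain ⟨d', q', hd', hq', hn', hfin', hdvd'⟩ := alg_rank_sd (sd_cj98 hF h1 h2)
    (Algebra.adjoin ℂ (pp (LBB71 L B Bi) (LBB71 K B Bi) : Set (Matrix n n ℂ)))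
    (fun a ha => Dat.adj_star hPI.st ha) (fun a ha hc => D.adj_cen hPI ha hc) (Algebra.subset_adjoin hgP)
  have hdim := D.dim_le hKI
  have hdim2 := D.dim_ge hKI
  rw [hfin, hfin'] at hdim hdim2
  have hEE : ∀ μ, E μ * E μ = E μ := fun μ => by rw [hE.mul, if_pos rfl]
  have hFF : ∀ μ, F μ * F μ = F μ := fun μ => by rw [hF.mul, if_pos rfl]
  have g1 : Gd h q := hEG q fun μ => by
    have := hdvd μ
    rwa [rank_cj h1 h2 (hEE μ)] at this
  have g2 : Gd g q' := hFG q' fun μ => by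
    have := hdvd' μ
    rwa [rank_cj h1 h2 (hFF μ)] at this
  have h5 : d * d' = Fintype.card n := by
    have e1 : d * d * (d' * d') = (d * d') * (d * d') := by ring
    rw [e1] at hdim hdim2
    exact le_antisymm (Nat.mul_self_le_mul_self_iff.1 hdim) (Nat.mul_self_le_mul_self_iff.1 hdim2)
  have h6 : q = d' := by
    have e1 : d * q = d * d' := by rw [← hn, h5]
    exact Nat.eq_of_mul_eq_mul_left hd e1
  have h7 : q' = d := by
    have e1 : d' * q' = d' * d := by rw [← hn', ← h5, mul_comm]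
    exact Nat.eq_of_mul_eq_mul_left hd' e1
  have full : ∀ (A : Subalgebra ℂ (Matrix n n ℂ)) (e : ℕ), Module.finrank ℂ A = e * e → Fintype.card n = e → A = ⊤ := by
    intro A e e1 e2
    apply Subalgebra.toSubmodule_injective
    rw [Algebra.top_toSubmodule]
    apply Submodule.eq_top_of_finrank_eq
    rw [Module.finrank_matrix, Module.finrank_self, mul_one, e2]
    exact e1
  have q2 : 2 ≤ q := by
    by_contra hcon
    have e1 : q = 1 := by omega
    have htop := full _ d hfin (by rw [hn, e1, mul_one])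
    have e2 : cj B Bi g = 0 := by
      refine D.cen_zero14 hgP.1 fun y _ => ?_
      have hy : y ∈ Algebra.adjoin ℂ (LBB71 K B Bi : Set (Matrix n n ℂ)) := by
        rw [htop]
        trivial
      exact (Dat.adj_comm (fun b hb => hKI.comm D.isI hb hgP) hy).symm
    apply hgK
    have e3 := congrArg (cj Bi B) e2
    rw [cj_cj h2, cj_zero] at e3
    rw [e3]
    exact K.zero_mem
  have q2' : 2 ≤ q' := by
    by_contra hcon
    have e1 : q' = 1 := by omega
    have htop := full _ d' hfin' (by rw [hn', e1, mul_one])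
    have e2 : cj B Bi h = 0 := by
      refine D.cen_zero14 (hKI.le hhK2) fun y _ => ?_
      have hy : y ∈ Algebra.adjoin ℂ (pp (LBB71 L B Bi) (LBB71 K B Bi) : Set (Matrix n n ℂ)) := by
        rw [htop]
        trivial
      exact Dat.adj_comm2 hKI D.isI (Algebra.subset_adjoin hhK2) hy
    obtain ⟨Y, hY, hY'⟩ := hhK
    apply hY'
    have e3 := congrArg (cj Bi B) e2
    rw [cj_cj h2, cj_zero] at e3
    rw [e3, zero_mul, mul_zero]
  exact hg h hh g hgs q q' q2 q2' (by rw [h6, h7, mul_comm, h5]) g1 g2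

end MH
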