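import Pool.Agent.Helper14.PP.DatG

/-!
Project WH (MP_b8862a_ag): the ideals of the Lie algebra `L` and a family of elements `h` with the Hodge multiplicities.
-/

set_option linter.unusedSectionVars false

open Matrix GH OW

namespace MH

variable {n : Type*} [Fintype n] [DecidableEq n]
variable {h : Matrix n n ℂ} {E : ℝ → Matrix n n ℂ} {Λ : Finset ℝ}
variable {τ : Matrix n n ℂ →ₗ[ℂ] Matrix n n ℂ} {L : Submodule ℂ (Matrix n n ℂ)}

/-- the eigenprojections commute with what commutes with `h` -/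
lemma SD.comm_E14 (S : SD h E Λ) {T : Matrix n n ℂ} (hT : T * h = h * T) (μ : ℝ) : T * E μ = E μ * T := by
  have h1 : ∀ ν, ν ≠ μ → E ν * T * E μ = 0 := by
    intro ν hν
    have e1 : E ν * (T * h) * E μ = (μ : ℂ) • (E ν * T * E μ) := by
      rw [← mul_assoc, mul_assoc (E ν * T), S.l_mul, mul_smul_comm]
    have e2 : E ν * (h * T) * E μ = (ν : ℂ) • (E ν * T * E μ) := by
      rw [← mul_assoc, S.mul_l, smul_mul_assoc, smul_mul_assoc]
    rw [hT, e2] at e1
    have e3 : ((ν : ℂ) - μ) • (E ν * T * E μ) = 0 := by rw [sub_smul, e1, sub_self]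
    rcases smul_eq_zero.1 e3 with e4 | e4
    · exact absurd (by exact_mod_cast sub_eq_zero.1 e4) hν
    · exact e4
  have h2 : ∀ ν, ν ≠ μ → E μ * T * E ν = 0 := by
    intro ν hν
    have e1 : E μ * (T * h) * E ν = (ν : ℂ) • (E μ * T * E ν) := by
      rw [← mul_assoc, mul_assoc (E μ * T), S.l_mul, mul_smul_comm]
    have e2 : E μ * (h * T) * E ν = (μ : ℂ) • (E μ * T * E ν) := by
      rw [← mul_assoc, S.mul_l, smul_mul_assoc, smul_mul_assoc]
    rw [hT, e2] at e1
    have e3 : ((μ : ℂ) - ν) • (E μ * T * E ν) = 0 := by rw [sub_smul, e1, sub_self]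
    rcases smul_eq_zero.1 e3 with e4 | e4
    · exact absurd (by exact_mod_cast sub_eq_zero.1 e4) (Ne.symm hν)
    · exact e4
  by_cases hμ : μ ∈ Λ
  · have e1 : T * E μ = E μ * T * E μ := by
      conv_lhs => rw [← one_mul (T * E μ), ← S.sum, Finset.sum_mul]
      rw [Finset.sum_eq_single_of_mem μ hμ]
      · rw [mul_assoc]
      · intro ν _ hν
        rw [← mul_assoc, h1 ν hν]
    have e2 : E μ * T = E μ * T * E μ := by
      conv_lhs => rw [← mul_one (E μ * T), ← S.sum, Finset.mul_sum]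
      rw [Finset.sum_eq_single_of_mem μ hμ]
      intro ν _ hν
      exact h2 ν hν
    rw [e1, ← e2]
  · rw [S.supp hμ, mul_zero, zero_mul]

private lemma comm_kr {d q : ℕ} (k0 : Fin q) (M : Matrix (Fin d × Fin q) (Fin d × Fin q) ℂ)
    (hM : ∀ Z : Matrix (Fin q) (Fin q) ℂ, M * kroneckerMap (· * ·) (1 : Matrix (Fin d) (Fin d) ℂ) Z =
      kroneckerMap (· * ·) (1 : Matrix (Fin d) (Fin d) ℂ) Z * M) :
    M = kroneckerMap (· * ·) (Matrix.of fun i j => M (i, k0) (j, k0)) (1 : Matrix (Fin q) (Fin q) ℂ) := by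
  have key : ∀ (i j : Fin d) (a b k l : Fin q), (if l = b then M (i, a) (j, k) else 0) = if a = k then M (i, l) (j, b) else 0 := by
    intro i j a b k l
    have e1 := congrFun (congrFun (hM (Matrix.of fun x y => if x = k ∧ y = l then 1 else 0)) (i, a)) (j, b)
    rw [Matrix.mul_apply, Matrix.mul_apply, Fintype.sum_prod_type, Fintype.sum_prod_type] at e1
    have e2 : ∑ x, ∑ y, M (i, a) (x, y) * kroneckerMap (· * ·) (1 : Matrix (Fin d) (Fin d) ℂ)
        (Matrix.of fun x y => if x = k ∧ y = l then (1 : ℂ) else 0) (x, y) (j, b) = if l = b then M (i, a) (j, k) else 0 := by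
      rw [Finset.sum_eq_single j, Finset.sum_eq_single k]
      · rw [kroneckerMap_apply, Matrix.one_apply_eq, of_apply]
        by_cases hlb : l = b
        · simp [hlb]
        · simp [hlb, Ne.symm hlb]
      · intro y _ hy
        rw [kroneckerMap_apply, of_apply, if_neg (fun h => hy h.1), mul_zero, mul_zero]
      · intro h; exact absurd (Finset.mem_univ k) h
      · intro x _ hx
        refine Finset.sum_eq_zero fun y _ => ?_
        rw [kroneckerMap_apply, Matrix.one_apply_ne hx, zero_mul, mul_zero]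
      · intro h; exact absurd (Finset.mem_univ j) h
    have e3 : ∑ x, ∑ y, kroneckerMap (· * ·) (1 : Matrix (Fin d) (Fin d) ℂ)
        (Matrix.of fun x y => if x = k ∧ y = l then (1 : ℂ) else 0) (i, a) (x, y) * M (x, y) (j, b) =
        if a = k then M (i, l) (j, b) else 0 := by
      rw [Finset.sum_eq_single i, Finset.sum_eq_single l]
      · rw [kroneckerMap_apply, Matrix.one_apply_eq, of_apply]
        by_cases hak : a = k
        · simp [hak]
        · simp [hak]
      · intro y _ hy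
        rw [kroneckerMap_apply, of_apply, if_neg (fun h => hy h.2), mul_zero, zero_mul]
      · intro h; exact absurd (Finset.mem_univ l) h
      · intro x _ hx
        refine Finset.sum_eq_zero fun y _ => ?_
        rw [kroneckerMap_apply, Matrix.one_apply_ne (Ne.symm hx), zero_mul, zero_mul]
      · intro h; exact absurd (Finset.mem_univ i) h
    rw [e2, e3] at e1
    exact e1
  ext ⟨i, a⟩ ⟨j, k⟩
  rw [kroneckerMap_apply, of_apply, Matrix.one_apply]
  by_cases hak : a = k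
  · subst hak
    have := key i j a k0 a k0
    simp only [if_true] at this
    rw [if_pos rfl, mul_one, this]
  · have := key i j a k0 k k0
    simp only [if_true, if_neg hak] at this
    rw [if_neg hak, mul_zero, this]

/-- a self-adjoint algebra with trivial centre that contains `h`: dimension and multiplicities -/
theorem alg_rank_sd [Nonempty n] (S : SD h E Λ) (A : Subalgebra ℂ (Matrix n n ℂ)) (hst : ∀ a ∈ A, aᴴ ∈ A)
    (hcen : ∀ a ∈ A, (∀ b ∈ A, a * b = b * a) → ∃ c : ℂ, a = c • (1 : Matrix n n ℂ)) (hh : h ∈ A) :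
    ∃ d q : ℕ, 1 ≤ d ∧ 1 ≤ q ∧ Fintype.card n = d * q ∧ Module.finrank ℂ A = d * d ∧ ∀ μ, q ∣ (E μ).rank := by
  classical
  obtain ⟨d, q, e, U, hd, hq, h1, h2, hA⟩ := OW.coord A hst hcen
  obtain ⟨i0⟩ : Nonempty (Fin d) := ⟨⟨0, by omega⟩⟩
  obtain ⟨k0⟩ : Nonempty (Fin q) := ⟨⟨0, by omega⟩⟩
  have hA' : ∀ T : Matrix n n ℂ, T ∈ A ↔ ∃ C : Matrix (Fin d) (Fin d) ℂ,
      T = NI.emb U e (kroneckerMap (· * ·) C (1 : Matrix (Fin q) (Fin q) ℂ)) := by
    intro T
    rw [hA]
    constructor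
    · rintro ⟨C, hC⟩
      refine ⟨C, ?_⟩
      rw [← NI.emb_coord (e := e) h2 T, hC, submatrix_submatrix, Equiv.self_comp_symm, submatrix_id_id]
    · rintro ⟨C, rfl⟩
      exact ⟨C, NI.coord_emb h1 _⟩
  refine ⟨d, q, hd, hq, ?_, ?_, ?_⟩
  · rw [Fintype.card_congr e, Fintype.card_prod, Fintype.card_fin, Fintype.card_fin]
  · have hinj : ∀ C : Matrix (Fin d) (Fin d) ℂ,
        NI.emb U e (kroneckerMap (· * ·) C (1 : Matrix (Fin q) (Fin q) ℂ)) = 0 → C = 0 := by
      intro C hC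
      have e1 : kroneckerMap (· * ·) C (1 : Matrix (Fin q) (Fin q) ℂ) = 0 := by
        apply NI.emb_inj (e := e) h1
        rw [hC]
        unfold NI.emb
        rw [submatrix_zero, Pi.zero_apply, Pi.zero_apply, Matrix.mul_zero, Matrix.zero_mul]
      ext i j
      have e2 := congrFun (congrFun e1 (i, k0)) (j, k0)
      rw [kroneckerMap_apply, Matrix.one_apply_eq, mul_one] at e2
      exact e2
    let f : Matrix (Fin d) (Fin d) ℂ →ₗ[ℂ] Subalgebra.toSubmodule A :=
      { toFun := fun C => ⟨NI.emb U e (kroneckerMap (· * ·) C (1 : Matrix (Fin q) (Fin q) ℂ)), (hA' _).2 ⟨C, rfl⟩⟩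
        map_add' := by
          intro C C'
          apply Subtype.ext
          show NI.emb U e _ = NI.emb U e _ + NI.emb U e _
          rw [← NI.emb_add]
          congr 1
          ext i j
          simp [add_mul]
        map_smul' := by
          intro c C
          apply Subtype.ext
          show NI.emb U e _ = c • NI.emb U e _
          rw [← NI.emb_smul]
          congr 1
          ext i j
          simp [mul_assoc] }
    have hf : Function.Bijective f := by
      constructor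
      · rw [← LinearMap.ker_eq_bot, LinearMap.ker_eq_bot']
        intro C hC
        exact hinj C (congrArg Subtype.val hC)
      · rintro ⟨T, hT⟩
        obtain ⟨C, rfl⟩ := (hA' _).1 hT
        exact ⟨C, rfl⟩
    have e1 := (LinearEquiv.ofBijective f hf).finrank_eq
    rw [Module.finrank_matrix, Fintype.card_fin, Module.finrank_self, mul_one] at e1
    exact e1.symm
  · intro μ
    obtain ⟨M, hM⟩ : ∃ M : Matrix (Fin d × Fin q) (Fin d × Fin q) ℂ, NI.emb U e M = E μ := ⟨_, NI.emb_coord h2 _⟩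
    have hMk := comm_kr k0 M (by
      intro Z
      obtain ⟨T, hT⟩ : ∃ T, T = NI.emb U e (kroneckerMap (· * ·) (1 : Matrix (Fin d) (Fin d) ℂ) Z) := ⟨_, rfl⟩
      have hTh : T * h = h * T := by
        obtain ⟨C, hC⟩ := (hA' h).1 hh
        have z1 := mul_kronecker_mul (1 : Matrix (Fin d) (Fin d) ℂ) C Z (1 : Matrix (Fin q) (Fin q) ℂ)
        have z2 := mul_kronecker_mul C (1 : Matrix (Fin d) (Fin d) ℂ) (1 : Matrix (Fin q) (Fin q) ℂ) Z
        rw [Matrix.one_mul, Matrix.mul_one] at z1 z2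
        rw [hC, hT, NI.emb_mul h1, NI.emb_mul h1]
        congr 1
        exact z1.symm.trans z2
      have e1 := S.comm_E14 hTh μ
      rw [hT, ← hM, NI.emb_mul h1, NI.emb_mul h1] at e1
      exact (NI.emb_inj h1 e1).symm)
    obtain ⟨C, hC⟩ : ∃ C : Matrix (Fin d) (Fin d) ℂ, C = Matrix.of fun i j => M (i, k0) (j, k0) := ⟨_, rfl⟩
    rw [← hC] at hMk
    have hCC : C * C = C := by
      have e1 : M * M = M := by
        apply NI.emb_inj (e := e) h1
        rw [← NI.emb_mul h1, hM, S.mul, if_pos rfl]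
      have z1 := mul_kronecker_mul C C (1 : Matrix (Fin q) (Fin q) ℂ) (1 : Matrix (Fin q) (Fin q) ℂ)
      rw [Matrix.one_mul] at z1
      rw [hMk] at e1
      have e2 : kroneckerMap (· * ·) (C * C) (1 : Matrix (Fin q) (Fin q) ℂ) =
          kroneckerMap (· * ·) C (1 : Matrix (Fin q) (Fin q) ℂ) := z1.trans e1
      ext i j
      have e3 := congrFun (congrFun e2 (i, k0)) (j, k0)
      rw [kroneckerMap_apply, kroneckerMap_apply, Matrix.one_apply_eq, mul_one, mul_one] at e3
      exact e3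
    have e1 : ((E μ).rank : ℂ) = (E μ).trace := rank_eq_trace (by rw [S.mul, if_pos rfl])
    have e2 : (C.rank : ℂ) = C.trace := rank_eq_trace hCC
    have e3 : (E μ).trace = q * C.trace := by
      rw [← hM]
      unfold NI.emb
      rw [Matrix.trace_mul_comm, ← Matrix.mul_assoc, h1, Matrix.one_mul, Matrix.trace]
      simp only [Matrix.diag_apply, Matrix.submatrix_apply]
      rw [Equiv.sum_comp e (fun x => M x x), hMk, Fintype.sum_prod_type]
      simp only [kroneckerMap_apply]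
      simp only [Matrix.one_apply_eq, mul_one, Finset.sum_const, Finset.card_univ, Fintype.card_fin, nsmul_eq_mul]
      rw [← Finset.mul_sum]
      rfl
    refine ⟨C.rank, ?_⟩
    have e4 : ((E μ).rank : ℂ) = ((q * C.rank : ℕ) : ℂ) := by
      rw [e1, e3, ← e2]
      push_cast
      rfl
    exact_mod_cast e4

namespace Dat

variable (D : Dat τ L h E Λ)
include D

/-- the dimensions of the algebras generated by an ideal and by its complement -/
theorem dim_le14 [Nonempty n] {J : Submodule ℂ (Matrix n n ℂ)} (hJ : IsI L J) :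
    Module.finrank ℂ (Algebra.adjoin ℂ (J : Set (Matrix n n ℂ))) *
      Module.finrank ℂ (Algebra.adjoin ℂ (pp L J : Set (Matrix n n ℂ))) ≤ Fintype.card n * Fintype.card n := by
  classical
  obtain ⟨A, hA⟩ : ∃ A : Submodule ℂ (Matrix n n ℂ),
    A = Subalgebra.toSubmodule (Algebra.adjoin ℂ (J : Set (Matrix n n ℂ))) := ⟨_, rfl⟩
  obtain ⟨A', hA'⟩ : ∃ A' : Submodule ℂ (Matrix n n ℂ),
    A' = Subalgebra.toSubmodule (Algebra.adjoin ℂ (pp L J : Set (Matrix n n ℂ))) := ⟨_, rfl⟩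
  have mA : ∀ {a}, a ∈ A → a ∈ Algebra.adjoin ℂ (J : Set (Matrix n n ℂ)) := fun {a} ha => by
    rw [hA] at ha
    exact ha
  have mA' : ∀ {a}, a ∈ A' → a ∈ Algebra.adjoin ℂ (pp L J : Set (Matrix n n ℂ)) := fun {a} ha => by
    rw [hA'] at ha
    exact ha
  have e1 : Module.finrank ℂ (Algebra.adjoin ℂ (J : Set (Matrix n n ℂ))) = Module.finrank ℂ A := by rw [hA]; rfl
  have e2 : Module.finrank ℂ (Algebra.adjoin ℂ (pp L J : Set (Matrix n n ℂ))) = Module.finrank ℂ A' := by
    rw [hA']; rfl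
  rw [e1, e2]
  obtain ⟨u, hu, huu, -⟩ := exists_onb98 A
  obtain ⟨v, hv, hvv, -⟩ := exists_onb98 A'
  have hN : (Fintype.card n : ℂ) ≠ 0 := by exact_mod_cast Fintype.card_ne_zero
  have hJp := hJ.perp D.isI
  have key : ∀ i j k l, (((u i * v j)ᴴ * (u k * v l)).trace : ℂ) =
      if (i, j) = (k, l) then (Fintype.card n : ℂ)⁻¹ else 0 := by
    intro i j k l
    have c1 : (v j)ᴴ ∈ Algebra.adjoin ℂ (pp L J : Set (Matrix n n ℂ)) := adj_star hJp.st (mA' (hv j))
    have c2 : (u i)ᴴ ∈ Algebra.adjoin ℂ (J : Set (Matrix n n ℂ)) := adj_star hJ.st (mA (hu i))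
    have e3 : (u i * v j)ᴴ * (u k * v l) = ((u i)ᴴ * u k) * ((v j)ᴴ * v l) := by
      rw [conjTranspose_mul]
      have e4 := adj_comm2 hJ D.isI (mul_mem c2 (mA (hu k))) c1
      calc (v j)ᴴ * (u i)ᴴ * (u k * v l) = (v j)ᴴ * ((u i)ᴴ * u k) * v l := by simp only [mul_assoc]
        _ = _ := by rw [← e4]; simp only [mul_assoc]
    have e5 := D.tr_prod hJ (mul_mem c2 (mA (hu k))) (mul_mem c1 (mA' (hv l)))
    rw [← e3, huu, hvv] at e5
    have e6 : ((u i * v j)ᴴ * (u k * v l)).trace = (Fintype.card n : ℂ)⁻¹ *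
        ((if i = k then 1 else 0) * (if j = l then 1 else 0)) := by
      rw [← e5, inv_mul_cancel_left₀ hN]
    rw [e6]
    by_cases h1 : i = k
    · by_cases h2 : j = l
      · rw [if_pos h1, if_pos h2, if_pos (by rw [h1, h2]), mul_one, mul_one]
      · rw [if_pos h1, if_neg h2, if_neg (fun h => h2 (Prod.mk.inj h).2), mul_zero, mul_zero]
    · rw [if_neg h1, if_neg (fun h => h1 (Prod.mk.inj h).1), zero_mul, mul_zero]
  have hli : LinearIndependent ℂ (fun x : Fin (Module.finrank ℂ A) × Fin (Module.finrank ℂ A') => u x.1 * v x.2) := by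
    rw [Fintype.linearIndependent_iff]
    rintro g hg ⟨k, l⟩
    have h1 := congrArg (fun M => ((u k * v l)ᴴ * M).trace) hg
    simp only [mul_zero, Matrix.trace_zero, Finset.mul_sum, Matrix.trace_sum, mul_smul_comm, Matrix.trace_smul,
      smul_eq_mul] at h1
    rw [Finset.sum_eq_single (k, l)] at h1
    · rw [key, if_pos rfl] at h1
      rcases mul_eq_zero.1 h1 with h2 | h2
      · exact h2
      · exact absurd h2 (inv_ne_zero hN)
    · rintro ⟨i, j⟩ _ hij
      rw [key, if_neg (Ne.symm hij), mul_zero]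
    · intro h2
      exact absurd (Finset.mem_univ _) h2
  have h1 := hli.fintype_card_le_finrank
  rw [Fintype.card_prod, Fintype.card_fin, Fintype.card_fin, Module.finrank_matrix, Module.finrank_self, mul_one] at h1
  exact h1

/-- the complement of an ideal is its centraliser -/
theorem mem_pp14 {K : Submodule ℂ (Matrix n n ℂ)} (hK : IsI L K) {x : Matrix n n ℂ} (hx : x ∈ L)
    (hc : ∀ y ∈ K, x * y = y * x) : x ∈ pp L K := by
  obtain ⟨k, hk, hk'⟩ := decomp (I := K) x
  have hp : x - k ∈ pp L K := ⟨L.sub_mem hx (hK.le hk), hk'⟩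
  have h0 : k = 0 := by
    refine D.cen_zero98 (hK.le hk) fun y hy => ?_
    obtain ⟨a, ha, ha'⟩ := decomp (I := K) y
    have hb : y - a ∈ pp L K := ⟨L.sub_mem hy (hK.le ha), ha'⟩
    have e1 : k * a = a * k := by
      have e2 := hK.comm D.isI ha hp
      rw [mul_sub, sub_mul, hc a ha] at e2
      exact (sub_right_injective e2).symm
    have e2 := hK.comm D.isI hk hb
    have e3 : y = a + (y - a) := by abel
    rw [e3, mul_add, add_mul, e1, e2]
  rw [h0, sub_zero] at hp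
  exact hp

end Dat

/-- an ideal in the new basis -/
theorem LBB_ideal14 {B Bi : Matrix n n ℂ} (h1 : B * Bi = 1) {K : Submodule ℂ (Matrix n n ℂ)}
    (hid : ∀ X ∈ L, ∀ Y ∈ K, X * Y - Y * X ∈ K) :
    ∀ X ∈ LBB71 L B Bi, ∀ Y ∈ LBB71 K B Bi, X * Y - Y * X ∈ LBB71 K B Bi := by
  intro x hx y hy
  rw [mem_LBB71, cj_sub, ← cj_mul h1, ← cj_mul h1]
  exact hid _ (mem_LBB71.1 hx) _ (mem_LBB71.1 hy)

/-- **A family of elements.** The Lie algebra `L` has no proper ideals if every ideal contains or centralises every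
element of a family with scalar commutant, and common divisors of multiplicities are small. -/
theorem smp_fam14 [Nonempty n] {Q' Qi : Matrix n n ℂ} {c0 : ℂ} (hc0 : c0 * c0 = 1) (hQs : Q'ᵀ = c0 • Q')
    (hQ1 : Q' * Qi = 1) (hQ2 : Qi * Q' = 1)
    {L : Submodule ℂ (Matrix n n ℂ)} (hbr : ∀ X ∈ L, ∀ Y ∈ L, X * Y - Y * X ∈ L)
    (hcomL : ∀ T : Matrix n n ℂ, (∀ X ∈ L, T * X = X * T) → ∃ c : ℂ, T = c • (1 : Matrix n n ℂ))
    (hsk : ∀ X ∈ L, Xᵀ * Q' + Q' * X = 0) (Hs : Set (Matrix n n ℂ)) (hne : Hs.Nonempty) (Gd : ℕ → Prop)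
    (hHs : ∀ h ∈ Hs, h ∈ L ∧ (∀ K ≤ L, (∀ X ∈ L, ∀ Y ∈ K, X * Y - Y * X ∈ K) → h ∈ K ∨ ∀ Y ∈ K, h * Y = Y * h) ∧
      ∃ (E : ℝ → Matrix n n ℂ) (Λ : Finset ℝ), SD h E Λ ∧ (∀ q : ℕ, (∀ μ, q ∣ (E μ).rank) → Gd q) ∧
        ∃ B Bi : Matrix n n ℂ, B * Bi = 1 ∧ Bi * B = 1 ∧ (cj B Bi h)ᴴ = cj B Bi h ∧
          ∀ X ∈ L, cj Bi B (cj B Bi X)ᴴ ∈ L)
    (hcom : ∀ T : Matrix n n ℂ, (∀ h ∈ Hs, T * h = h * T) → ∃ c : ℂ, T = c • (1 : Matrix n n ℂ))
    (hg : ∀ q q' : ℕ, Gd q → Gd q' → q * q' < Fintype.card n) : Smp L := by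
  classical
  have htr : ∀ X ∈ L, X.trace = 0 := by
    intro Y hY
    have e1 : Yᵀ * Q' = -(Q' * Y) := eq_neg_of_add_eq_zero_left (hsk Y hY)
    have e2 : Y.trace = -Y.trace := by
      calc Y.trace = (Yᵀ * (Q' * Qi)).trace := by rw [hQ1, mul_one, Matrix.trace_transpose]
        _ = -(Q' * Y * Qi).trace := by rw [← mul_assoc, e1, neg_mul, Matrix.trace_neg]
        _ = -Y.trace := by rw [mul_assoc, Matrix.trace_mul_comm, mul_assoc, hQ2, mul_one]
    exact self_eq_neg.1 e2
  have hsc : ∀ X ∈ L, (∀ h ∈ Hs, X * h = h * X) → X = 0 := by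
    intro X hX hc
    obtain ⟨c, hc⟩ := hcom X hc
    have h1 := htr X hX
    rw [hc, Matrix.trace_smul, Matrix.trace_one, smul_eq_mul] at h1
    rcases mul_eq_zero.1 h1 with h2 | h2
    · rw [hc, h2, zero_smul]
    · exact absurd h2 (by exact_mod_cast Fintype.card_ne_zero)
  intro K hK hid
  by_cases hA : ∀ h ∈ Hs, h ∈ K
  · -- every element is in the ideal
    right
    refine le_antisymm hK fun x hx => ?_
    obtain ⟨h, hh⟩ := hne
    obtain ⟨hhL, -, E, Λ, hE, -, B, Bi, h1, h2, h3, h4⟩ := hHs h hh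
    obtain ⟨D, -, -, -⟩ := dat_gen14 hc0 hQs hQ1 hQ2 hbr hcomL hsk hhL hE h1 h2 h3 h4
    have hKI := D.isI_of (K := LBB71 K B Bi) (fun y hy => hK hy) (LBB_ideal14 h1 hid)
    obtain ⟨a, ha, ha'⟩ := decomp (I := LBB71 K B Bi) (cj B Bi x)
    have hxL : cj B Bi x ∈ LBB71 L B Bi := by rw [mem_LBB71, cj_cj h2]; exact hx
    have hb : cj B Bi x - a ∈ pp (LBB71 L B Bi) (LBB71 K B Bi) :=
      ⟨Submodule.sub_mem _ hxL (hKI.le ha), ha'⟩
    have h0 : cj Bi B (cj B Bi x - a) = 0 := by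
      refine hsc _ (mem_LBB71.1 hb.1) fun g hg' => ?_
      have hgK : cj B Bi g ∈ LBB71 K B Bi := by rw [mem_LBB71, cj_cj h2]; exact hA g hg'
      have e1 := hKI.comm D.isI hgK hb
      have e2 := congrArg (cj Bi B) e1
      rw [← cj_mul h1, ← cj_mul h1, cj_cj h2] at e2
      exact e2.symm
    have h5 : cj B Bi x - a = 0 := by
      have e1 := congrArg (cj B Bi) h0
      rwa [cj_cj h1, cj_zero] at e1
    have h6 : cj B Bi x ∈ LBB71 K B Bi := by rw [sub_eq_zero.1 h5]; exact ha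
    rw [mem_LBB71, cj_cj h2] at h6
    exact h6
  by_cases hB : ∀ h ∈ Hs, ∀ Y ∈ K, h * Y = Y * h
  · -- every element centralises the ideal
    left
    rw [eq_bot_iff]
    intro Y hY
    rw [Submodule.mem_bot]
    exact hsc Y (hK hY) fun h hh => (hB h hh Y hY).symm
  exfalso
  push Not at hA hB
  obtain ⟨g, hgs, hgK⟩ := hA
  obtain ⟨h, hh, hhK⟩ := hB
  obtain ⟨hgL, hgor, F, Λ', hF, hFG, -⟩ := hHs g hgs
  have hgc : ∀ Y ∈ K, g * Y = Y * g := (hgor K hK hid).resolve_left hgK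
  obtain ⟨hhL, hhor, E, Λ, hE, hEG, B, Bi, h1, h2, h3, h4⟩ := hHs h hh
  have hhK' : h ∈ K := by
    refine (hhor K hK hid).resolve_right fun hcon => ?_
    obtain ⟨Y, hY, hY'⟩ := hhK
    exact hY' (hcon Y hY)
  obtain ⟨D, -, -, -⟩ := dat_gen14 hc0 hQs hQ1 hQ2 hbr hcomL hsk hhL hE h1 h2 h3 h4
  have hKI := D.isI_of (K := LBB71 K B Bi) (fun y hy => hK hy) (LBB_ideal14 h1 hid)
  have hPI := hKI.perp D.isI
  have hhK2 : cj B Bi h ∈ LBB71 K B Bi := by rw [mem_LBB71, cj_cj h2]; exact hhK'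
  have hgP : cj B Bi g ∈ pp (LBB71 L B Bi) (LBB71 K B Bi) := by
    refine D.mem_pp14 hKI (by rw [mem_LBB71, cj_cj h2]; exact hgL) fun y hy => ?_
    have e1 := congrArg (cj B Bi) (hgc _ (mem_LBB71.1 hy))
    rwa [← cj_mul h2, ← cj_mul h2, cj_cj h1] at e1
  obtain ⟨d, q, hd, hq, hn, hfin, hdvd⟩ := alg_rank D.spec (Algebra.adjoin ℂ (LBB71 K B Bi : Set (Matrix n n ℂ)))
    (fun a ha => Dat.adj_star hKI.st ha) (fun a ha hc => D.adj_cen hKI ha hc) (Algebra.subset_adjoin hhK2)
  obtain ⟨d', q', hd', hq', hn', hfin', hdvd'⟩ := alg_rank_sd (sd_cj98 hF h1 h2)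
    (Algebra.adjoin ℂ (pp (LBB71 L B Bi) (LBB71 K B Bi) : Set (Matrix n n ℂ)))
    (fun a ha => Dat.adj_star hPI.st ha) (fun a ha hc => D.adj_cen hPI ha hc) (Algebra.subset_adjoin hgP)
  have hdim := D.dim_le14 hKI
  rw [hfin, hfin'] at hdim
  have hEE : ∀ μ, E μ * E μ = E μ := fun μ => by rw [hE.mul, if_pos rfl]
  have hFF : ∀ μ, F μ * F μ = F μ := fun μ => by rw [hF.mul, if_pos rfl]
  have g1 : Gd q := hEG q fun μ => by
    have := hdvd μ
    rwa [rank_cj h1 h2 (hEE μ)] at this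
  have g2 : Gd q' := hFG q' fun μ => by
    have := hdvd' μ
    rwa [rank_cj h1 h2 (hFF μ)] at this
  have hlt := hg q q' g1 g2
  have hN : 0 < Fintype.card n := Fintype.card_pos
  have h5 : d * d' ≤ Fintype.card n := by
    have e1 : d * d * (d' * d') = (d * d') * (d * d') := by ring
    rw [e1] at hdim
    exact Nat.mul_self_le_mul_self_iff.1 hdim
  have h6 : Fintype.card n * Fintype.card n = (d * d') * (q * q') := by
    conv_lhs => rw [hn']
    conv_lhs => rw [show d' * q' * (d' * q') = (d' * q') * (d' * q') from rfl]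
    calc d' * q' * (d' * q') = (Fintype.card n) * (d' * q') := by rw [← hn']
      _ = d * q * (d' * q') := by rw [← hn]
      _ = _ := by ring
  have h7 : (d * d') * (q * q') ≤ Fintype.card n * (q * q') := Nat.mul_le_mul_right _ h5
  have h8 : Fintype.card n * (q * q') < Fintype.card n * Fintype.card n := Nat.mul_lt_mul_of_pos_left hlt hN
  omega

end MH
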